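import Pool.Agent.Lib.MP_c64b61_an.Simons

/-!
From a selection property for open convex sets to an affine Baire-one extension.
-/

open Set Filter Topology Bornology

namespace Pool.Agent.Lib.MP_c64b61_an

theorem exists_seminorm_seq (F : Type*) [AddCommGroup F] [Module ℝ F] [TopologicalSpace F]
    [IsTopologicalAddGroup F] [ContinuousSMul ℝ F] [LocallyConvexSpace ℝ F]
    [FirstCountableTopology F] :
    ∃ (q : ℕ → Seminorm ℝ F) (r : ℕ → ℝ), (∀ n, Continuous (q n)) ∧ (∀ n, 0 < r n) ∧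
      ∀ U ∈ 𝓝 (0 : F), ∃ n, ∀ z, q n z < r n → z ∈ U := by
  obtain ⟨u, hu⟩ := (𝓝 (0 : F)).exists_antitone_basis
  have hp := PolynormableSpace.withSeminorms ℝ F
  have : ∀ n, ∃ (q : Seminorm ℝ F) (r : ℝ), Continuous q ∧ 0 < r ∧ ∀ z, q z < r → z ∈ u n := by
    intro n
    obtain ⟨s, r, hr, hs⟩ := (hp.mem_nhds_iff 0 (u n)).1 (hu.mem n)
    refine ⟨_, r, Seminorm.continuous_finsetSup (s := s) fun i _ => hp.continuous_seminorm i, hr,
      fun z hz => hs ?_⟩
    rwa [Seminorm.mem_ball_zero]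
  choose q r h1 h2 h3 using this
  refine ⟨q, r, h1, h2, fun U hU => ?_⟩
  obtain ⟨n, hn⟩ := hu.mem_iff.1 hU
  exact ⟨n, fun z hz => hn (h3 n z hz)⟩

variable {V : Type*} [AddCommGroup V] [Module ℝ V] [TopologicalSpace V]
  [IsTopologicalAddGroup V] [ContinuousSMul ℝ V] [LocallyConvexSpace ℝ V] [T2Space V]

theorem convex_seminorm_lt {F : Type*} [AddCommGroup F] [Module ℝ F] {V : Type*} [AddCommGroup V]
    [Module ℝ V] (q : Seminorm ℝ F) (y : F) (l : V →ₗ[ℝ] ℝ) (c : ℝ) :
    Convex ℝ {p : V × F | q (p.2 - y) < c - l p.1} := by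
  intro p hp p' hp' s t hs ht hst
  simp only [mem_ofPred_eq, Prod.snd_add, Prod.smul_snd, Prod.fst_add, Prod.smul_fst, map_add,
    map_smul, smul_eq_mul] at hp hp' ⊢
  have h1 : s • p.2 + t • p'.2 - y = s • (p.2 - y) + t • (p'.2 - y) := by
    have : t = 1 - s := by linarith
    subst this
    module
  have h2 : q (s • (p.2 - y) + t • (p'.2 - y)) ≤ s * q (p.2 - y) + t * q (p'.2 - y) := by
    refine (map_add_le_add q _ _).trans ?_
    rw [map_smul_eq_mul, map_smul_eq_mul, Real.norm_of_nonneg hs, Real.norm_of_nonneg ht]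
  rw [h1]
  have h3 : s * (q (p.2 - y) + l p.1) + t * (q (p'.2 - y) + l p'.1) < c := by
    have := Convex.combo_le_max (q (p.2 - y) + l p.1) (q (p'.2 - y) + l p'.1) hs ht hst
    simp only [smul_eq_mul] at this
    exact this.trans_lt (max_lt (by linarith) (by linarith))
  linarith

theorem abstract_main {F : Type*} [AddCommGroup F] [Module ℝ F] [UniformSpace F]
    [IsUniformAddGroup F] [ContinuousSMul ℝ F] [LocallyConvexSpace ℝ F] [CompleteSpace F]
    [T2Space F] [FirstCountableTopology F]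
    {X : Set V} (hX : IsCompact X) (hXc : Convex ℝ X) (hL : IsLindelof (X.extremePoints ℝ))
    (f : V → F) (hf : ContinuousOn f (X.extremePoints ℝ))
    (hb : IsVonNBounded ℝ (f '' X.extremePoints ℝ))
    (hsel : ∀ Ω : Set (V × F), IsOpen Ω → Convex ℝ Ω → (∀ e ∈ X.extremePoints ℝ, (e, f e) ∈ Ω) →
      ∃ g : V → F, Continuous g ∧
        (∀ (x y : V) (s t : ℝ), s + t = 1 → g (s • x + t • y) = s • g x + t • g y) ∧
        ∀ x ∈ X, (x, g x) ∈ Ω) :
    ∃ (u : ℕ → V → F) (g : V → F), (∀ n, Continuous (u n)) ∧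
      (∀ n (x y : V) (s t : ℝ), s + t = 1 → u n (s • x + t • y) = s • u n x + t • u n y) ∧
      (∀ x ∈ X, Tendsto (fun n => u n x) atTop (𝓝 (g x))) ∧
      ∀ e ∈ X.extremePoints ℝ, g e = f e := by
  obtain ⟨q, r, hq, hr, hbasis⟩ := exists_seminorm_seq F
  have hM : ∀ n, ∃ M > 0, ∀ e ∈ X.extremePoints ℝ, q n (f e) < M := fun n =>
    ((PolynormableSpace.withSeminorms ℝ F).image_isVonNBounded_iff_seminorm_bounded f).1 hb
      ⟨q n, hq n⟩
  choose M hM0 hM using hM
  let Good : Set (V × F) → Prop := fun Ω =>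
    IsOpen Ω ∧ Convex ℝ Ω ∧ ∀ e ∈ X.extremePoints ℝ, (e, f e) ∈ Ω
  have hloc : ∀ (n : ℕ) (x : V), ∃ (Ω : Set (V × F)) (O : Set V), x ∈ X.extremePoints ℝ →
      Good Ω ∧ O ∈ 𝓝 x ∧ ∀ e ∈ X.extremePoints ℝ, e ∈ O → ∀ z, (e, z) ∈ Ω →
        q n (z - f e) < r n := by
    intro n x
    by_cases hx : x ∈ X.extremePoints ℝ
    swap
    · exact ⟨∅, ∅, fun h => (hx h).elim⟩
    have hc : ContinuousWithinAt (fun e => q n (f e - f x)) (X.extremePoints ℝ) x :=
      (hq n).continuousAt.comp_continuousWithinAt ((hf x hx).sub continuousWithinAt_const)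
    have hev : ∀ᶠ e in 𝓝[X.extremePoints ℝ] x, q n (f e - f x) < r n / 4 := by
      refine hc.eventually (gt_mem_nhds ?_)
      simpa using hr n
    obtain ⟨N, hNo, hxN, hN⟩ := mem_nhdsWithin.1 hev
    have hMn := hM0 n
    have hrn := hr n
    obtain ⟨l, c, h0, h1, h2⟩ := exists_affine_small hX hXc hx hNo hxN
      (η := r n / (8 * M n)) (by positivity)
    let Ω : Set (V × F) := {p | q n (p.2 - f x) < (r n / 4 + 2 * M n * c) -
      ((2 * M n) • l.toLinearMap) p.1}
    have hmem : ∀ v z, (v, z) ∈ Ω ↔ q n (z - f x) < r n / 4 + 2 * M n * (c - l v) := by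
      intro v z
      simp only [Ω, mem_ofPred_eq, LinearMap.smul_apply, ContinuousLinearMap.coe_coe, smul_eq_mul]
      constructor <;> intro h <;> linarith
    have hgraph : ∀ e ∈ X.extremePoints ℝ, (e, f e) ∈ Ω := by
      intro e he
      rw [hmem]
      have hpos := h0 e (extremePoints_subset he)
      by_cases heN : e ∈ N
      · have : q n (f e - f x) < r n / 4 := hN ⟨heN, he⟩
        have : 0 < 2 * M n * (c - l e) := by positivity
        linarith
      · have h3 := h1 e (extremePoints_subset he) heN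
        have h4 := map_sub_le_add (q n) (f e) (f x)
        have h5 := hM n e he
        have h6 := hM n x hx
        nlinarith
    refine ⟨Ω, {v | 2 * M n * (c - l v) < r n / 4}, fun _ => ⟨⟨?_, ?_, hgraph⟩, ?_, ?_⟩⟩
    · refine isOpen_lt ((hq n).comp (by fun_prop)) ?_
      simp only [LinearMap.smul_apply, ContinuousLinearMap.coe_coe, smul_eq_mul]
      fun_prop
    · exact convex_seminorm_lt _ _ _ _
    · refine (isOpen_lt (by fun_prop) continuous_const).mem_nhds ?_
      simp only [mem_ofPred_eq]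
      rw [lt_div_iff₀ (by positivity)] at h2
      linarith
    · intro e he heO z hz
      have h3 := (hmem _ _).1 hz
      have h4 := (hmem _ _).1 (hgraph e he)
      have h5 : 2 * M n * (c - l e) < r n / 4 := heO
      have h6 := map_sub_le_add (q n) (z - f x) (f e - f x)
      rw [sub_sub_sub_cancel_right] at h6
      linarith
  choose Ω O hΩ using hloc
  have hcov : ∀ n, ∃ t : Set V, t.Countable ∧ (∀ x ∈ t, x ∈ X.extremePoints ℝ) ∧
      X.extremePoints ℝ ⊆ ⋃ x ∈ t, O n x := fun n =>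
    hL.elim_nhds_subcover (O n) fun x hx => (hΩ n x hx).2.1
  choose t ht1 ht2 ht3 using hcov
  let B : ℕ → Set (V × F) := fun n => {p | q n (p.2 - 0) < M n - (0 : V →ₗ[ℝ] ℝ) p.1}
  have hBmem : ∀ n v z, (v, z) ∈ B n ↔ q n z < M n := by
    intro n v z
    simp [B]
  have hBgood : ∀ n, Good (B n) := fun n =>
    ⟨isOpen_lt ((hq n).comp (by fun_prop)) (by simpa using continuous_const),
      convex_seminorm_lt _ _ _ _, fun e he => (hBmem _ _ _).2 (hM n e he)⟩
  let fam : Set (Set (V × F)) := range B ∪ ⋃ n, Ω n '' t n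
  have hfc : fam.Countable :=
    (countable_range B).union (countable_iUnion fun n => (ht1 n).image _)
  obtain ⟨E, hE⟩ := hfc.exists_eq_range ⟨B 0, Or.inl (mem_range_self 0)⟩
  have hEgood : ∀ j, Good (E j) := by
    intro j
    have : E j ∈ fam := hE ▸ mem_range_self j
    rcases this with ⟨n, hn⟩ | h
    · exact hn ▸ hBgood n
    · obtain ⟨n, x, hx, h⟩ := mem_iUnion.1 h
      exact h ▸ (hΩ n x (ht2 n x hx)).1
  have hex : ∀ N : ℕ, ∃ g : V → F, Continuous g ∧
      (∀ (x y : V) (s t : ℝ), s + t = 1 → g (s • x + t • y) = s • g x + t • g y) ∧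
      ∀ x ∈ X, (x, g x) ∈ ⋂ j ∈ Iic N, E j := fun N =>
    hsel _ ((finite_Iic N).isOpen_biInter fun j _ => (hEgood j).1)
      (convex_iInter₂ fun j _ => (hEgood j).2.1)
      (fun e he => mem_iInter₂.2 fun j _ => (hEgood j).2.2 e he)
  choose u hu1 hu2 hu3 using hex
  have hu4 : ∀ j N, j ≤ N → ∀ x ∈ X, (x, u N x) ∈ E j := fun j N hj x hx =>
    mem_iInter₂.1 (hu3 N x hx) j hj
  have hconv : ∀ e ∈ X.extremePoints ℝ, Tendsto (fun N => u N e) atTop (𝓝 (f e)) := by
    intro e he
    rw [← tendsto_sub_nhds_zero_iff]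
    intro U hU
    obtain ⟨n, hn⟩ := hbasis U hU
    obtain ⟨x, hx, hxe⟩ := mem_iUnion₂.1 (ht3 n he)
    have : Ω n x ∈ range E := hE ▸ Or.inr (mem_iUnion.2 ⟨n, x, hx, rfl⟩)
    obtain ⟨j, hj⟩ := this
    refine mem_map.2 (eventually_atTop.2 ⟨j, fun N hN => hn _ ?_⟩)
    exact (hΩ n x (ht2 n x hx)).2.2 e he hxe _ (hj ▸ hu4 j N hN e (extremePoints_subset he))
  have hcauchy : ∀ x ∈ X, CauchySeq fun N => u N x := by
    intro x₀ hx₀
    rw [CauchySeq, IsUniformAddGroup.cauchy_map_iff_tendsto]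
    refine ⟨inferInstance, fun U hU => ?_⟩
    obtain ⟨n, hn⟩ := hbasis U hU
    have hB : B n ∈ range E := hE ▸ Or.inl (mem_range_self n)
    obtain ⟨j, hj⟩ := hB
    have hbound : ∀ N, j ≤ N → ∀ x ∈ X, q n (u N x) < M n := fun N hN x hx =>
      (hBmem _ _ _).1 (hj ▸ hu4 j N hN x hx)
    rw [mem_map, prod_atTop_atTop_eq]
    by_contra hcon
    have : ∀ k : ℕ, ∃ p : ℕ × ℕ, (k + j, k + j) ≤ p ∧ r n ≤ q n (u p.1 x₀ - u p.2 x₀) := by
      intro k
      by_contra h
      push Not at h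
      exact hcon (mem_atTop_sets.2 ⟨(k + j, k + j), fun p hp => hn _ (h p hp)⟩)
    choose p hp1 hp2 using this
    have hp3 : ∀ k, k + j ≤ (p k).1 := fun k => (hp1 k).1
    have hp4 : ∀ k, k + j ≤ (p k).2 := fun k => (hp1 k).2
    obtain ⟨k, hk⟩ := rainwater hX hXc (fun k x => q n (u (p k).1 x - u (p k).2 x))
      (fun k => ((hq n).comp ((hu1 _).sub (hu1 _))).continuousOn) (fun k => ⟨hXc, by
        intro x _ y _ s t hs ht hst
        simp only [smul_eq_mul]
        rw [hu2 _ x y s t hst, hu2 _ x y s t hst]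
        have : s • u (p k).1 x + t • u (p k).1 y - (s • u (p k).2 x + t • u (p k).2 y) =
            s • (u (p k).1 x - u (p k).2 x) + t • (u (p k).1 y - u (p k).2 y) := by module
        rw [this]
        refine (map_add_le_add (q n) _ _).trans ?_
        rw [map_smul_eq_mul, map_smul_eq_mul, Real.norm_of_nonneg hs, Real.norm_of_nonneg ht]⟩)
      (M n + M n) (fun k x hx => by
        rw [abs_of_nonneg (apply_nonneg _ _)]
        exact (map_sub_le_add (q n) _ _).trans (add_le_add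
          (hbound _ ((Nat.le_add_left j k).trans (hp3 k)) x hx).le
          (hbound _ ((Nat.le_add_left j k).trans (hp4 k)) x hx).le))
      (fun e he => by
        have h1 : Tendsto (fun k => (p k).1) atTop atTop :=
          tendsto_atTop_mono (fun k => (Nat.le_add_right k j).trans (hp3 k)) tendsto_id
        have h2 : Tendsto (fun k => (p k).2) atTop atTop :=
          tendsto_atTop_mono (fun k => (Nat.le_add_right k j).trans (hp4 k)) tendsto_id
        have h3 := ((hconv e he).comp h1).sub ((hconv e he).comp h2)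
        rw [sub_self] at h3
        have h4 := ((hq n).tendsto 0).comp h3
        rw [map_zero] at h4
        exact h4) hx₀ (hr n)
    exact absurd (hp2 k) (not_le.2 hk)
  refine ⟨u, fun x => limUnder atTop fun N => u N x, hu1, hu2,
    fun x hx => (hcauchy x hx).tendsto_limUnder, fun e he => ?_⟩
  exact (hconv e he).limUnder_eq

end Pool.Agent.Lib.MP_c64b61_an
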