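import Pool.Agent.Lib.MP_c64b61_an.Select

/-!
The dual decomposition property for the unit ball of an L1 space.
-/

open Set Filter Topology RCLike MeasureTheory

namespace Pool.Agent.Lib.MP_c64b61_an

theorem l1_core {𝕜 : Type*} [RCLike 𝕜] {Ω : Type*} [MeasurableSpace Ω] {μ : Measure Ω}
    {ι κ : Type*} [Fintype ι] [Fintype κ] (u : ι → Lp 𝕜 1 μ) (β : ι → κ → 𝕜)
    (l : ι → Lp 𝕜 1 μ →L[𝕜] 𝕜) (s : ι → ℝ) (hrel : ∀ k, ∑ i, β i k • u i = 0)
    (h : ∀ ξ : Lp 𝕜 1 μ, ‖ξ‖ ≤ 1 → ∃ z : κ → 𝕜, ∀ i, ‖l i ξ + ∑ k, β i k * z k‖ ≤ s i) :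
    ∑ i, re (l i (u i)) ≤ ∑ i, s i * ‖u i‖ := by
  classical
  let R : Submodule 𝕜 (ι → 𝕜) :=
    { carrier := {a | ∀ k, ∑ i, β i k * a i = 0}
      add_mem' := fun {a b} ha hb k => by
        simp only [Pi.add_apply, mul_add, Finset.sum_add_distrib, ha k, hb k, add_zero]
      zero_mem' := fun k => by simp
      smul_mem' := fun c a ha k => by
        simp only [Pi.smul_apply, smul_eq_mul, mul_left_comm _ c, ← Finset.mul_sum, ha k,
          mul_zero] }
  let pr : ι → R →L[𝕜] 𝕜 := fun i =>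
    (ContinuousLinearMap.proj (R := 𝕜) (φ := fun _ : ι => 𝕜) i).comp R.subtypeL
  have hpr : ∀ i (a : R), pr i a = (a : ι → 𝕜) i := fun i a => rfl
  let π : ι → Lp R 1 μ →L[𝕜] Lp 𝕜 1 μ := fun i => (pr i).compLpL 1 μ
  have hπ : ∀ i (U : Lp R 1 μ), π i U =ᵐ[μ] fun ω => (U ω : ι → 𝕜) i := fun i U =>
    (pr i).coeFn_compLpL U
  have key : ∀ U : Lp R 1 μ, ∑ i, re (l i (π i U)) ≤ ∑ i, s i * ‖π i U‖ := by
    refine Lp.induction ENNReal.one_ne_top _ ?_ ?_ ?_
    · intro c A hA hμA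
      rw [Lp.simpleFunc.coe_indicatorConst]
      have h1 : ∀ i, π i (indicatorConstLp 1 hA hμA.ne c) =
          ((c : ι → 𝕜) i) • indicatorConstLp 1 hA hμA.ne (1 : 𝕜) := by
        intro i
        refine Lp.ext ?_
        filter_upwards [hπ i (indicatorConstLp 1 hA hμA.ne c),
          indicatorConstLp_coeFn (p := 1) (hs := hA) (hμs := hμA.ne) (c := c),
          indicatorConstLp_coeFn (p := 1) (hs := hA) (hμs := hμA.ne) (c := (1 : 𝕜)),
          Lp.coeFn_smul ((c : ι → 𝕜) i) (indicatorConstLp 1 hA hμA.ne (1 : 𝕜))] with ω e1 e2 e3 e4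
        rw [e1, e2, e4, Pi.smul_apply, e3]
        by_cases hω : ω ∈ A <;> simp [hω]
      simp only [h1]
      set χ := indicatorConstLp 1 hA hμA.ne (1 : 𝕜) with hχ
      rcases eq_or_ne χ 0 with h0 | h0
      · simp [h0]
      have hm : 0 < ‖χ‖ := norm_pos_iff.2 h0
      obtain ⟨z, hz⟩ := h (((‖χ‖⁻¹ : ℝ) : 𝕜) • χ) (by
        rw [norm_smul, norm_ofReal, abs_of_pos (inv_pos.2 hm), inv_mul_cancel₀ hm.ne'])
      have h2 : ∑ i, l i ((c : ι → 𝕜) i • χ) = ∑ i, (c : ι → 𝕜) i * (‖χ‖ : 𝕜) *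
          (l i (((‖χ‖⁻¹ : ℝ) : 𝕜) • χ) + ∑ k, β i k * z k) := by
        have h3 : ∑ i, (c : ι → 𝕜) i * (‖χ‖ : 𝕜) * ∑ k, β i k * z k = 0 := by
          simp only [Finset.mul_sum]
          rw [Finset.sum_comm]
          refine Finset.sum_eq_zero fun k _ => ?_
          have : ∑ i, (c : ι → 𝕜) i * (‖χ‖ : 𝕜) * (β i k * z k) =
              (∑ i, β i k * (c : ι → 𝕜) i) * ((‖χ‖ : 𝕜) * z k) := by
            rw [Finset.sum_mul]
            exact Finset.sum_congr rfl fun i _ => by ring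
          rw [this, c.2 k, zero_mul]
        simp only [mul_add, Finset.sum_add_distrib, h3, add_zero, map_smul, smul_eq_mul]
        refine Finset.sum_congr rfl fun i _ => ?_
        have : (‖χ‖ : 𝕜) ≠ 0 := by exact_mod_cast hm.ne'
        push_cast
        field_simp
      rw [← map_sum, h2, map_sum]
      refine Finset.sum_le_sum fun i _ => (re_le_norm _).trans ?_
      rw [norm_mul, norm_mul, norm_smul, norm_ofReal, abs_of_pos hm, mul_comm]
      exact mul_le_mul_of_nonneg_right (hz i) (by positivity)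
    · intro f g hf hg hdisj h1 h2
      have hnorm : ∀ i, ‖π i (hf.toLp f + hg.toLp g)‖ = ‖π i (hf.toLp f)‖ + ‖π i (hg.toLp g)‖ := by
        intro i
        rw [map_add, L1.norm_eq_integral_norm, L1.norm_eq_integral_norm, L1.norm_eq_integral_norm,
          ← integral_add (L1.integrable_coeFn _).norm (L1.integrable_coeFn _).norm]
        refine integral_congr_ae ?_
        filter_upwards [Lp.coeFn_add (π i (hf.toLp f)) (π i (hg.toLp g)), hπ i (hf.toLp f),
          hπ i (hg.toLp g), hf.coeFn_toLp, hg.coeFn_toLp] with ω e1 e2 e3 e4 e5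
        rw [e1, Pi.add_apply, e2, e3, e4, e5]
        by_cases hω : f ω = 0
        · simp [hω]
        · have : g ω = 0 := by
            by_contra hg0
            exact Set.disjoint_left.1 hdisj hω hg0
          simp [this]
      simp only [hnorm, mul_add, Finset.sum_add_distrib]
      simp only [map_add, Finset.sum_add_distrib]
      exact add_le_add h1 h2
    · refine isClosed_le ?_ (by fun_prop)
      exact continuous_finsetSum _ fun i _ => RCLike.continuous_re.comp (by fun_prop)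
  obtain ⟨P, hP⟩ := R.subtype.exists_leftInverse_of_injective R.ker_subtype
  let P' : (ι → 𝕜) →L[𝕜] R := LinearMap.toContinuousLinearMap P
  have hf : MemLp (fun ω i => u i ω) 1 μ := memLp_pi_iff.2 fun i => Lp.memLp (u i)
  have hae : ∀ᵐ ω ∂μ, (fun i => u i ω) ∈ R := by
    have : ∀ k, ∀ᵐ ω ∂μ, ∑ i, β i k * u i ω = 0 := by
      intro k
      have e1 := Lp.coeFn_fun_finsetSum Finset.univ fun i => β i k • u i
      rw [hrel k] at e1
      have e2 : ∀ᵐ ω ∂μ, ∀ i, (β i k • u i) ω = β i k * u i ω :=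
        ae_all_iff.2 fun i => Lp.coeFn_smul _ _
      filter_upwards [e1, e2, Lp.coeFn_zero 𝕜 1 μ] with ω a1 a2 a3
      simp only [a2] at a1
      rw [← a1, a3]
      rfl
    exact ae_all_iff.2 this
  have hU : ∀ i, π i (P'.compLpL 1 μ (hf.toLp _)) = u i := by
    intro i
    refine Lp.ext ?_
    filter_upwards [hπ i (P'.compLpL 1 μ (hf.toLp _)), P'.coeFn_compLpL (hf.toLp _),
      hf.coeFn_toLp, hae] with ω e1 e2 e3 e4
    rw [e1, e2, e3]
    have : P' (fun i => u i ω) = ⟨_, e4⟩ := LinearMap.congr_fun hP ⟨_, e4⟩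
    rw [this]
  have := key (P'.compLpL 1 μ (hf.toLp _))
  simpa only [hU] using this

universe a b

theorem propH_ball {𝕜 : Type*} [RCLike 𝕜] {E : Type*} [NormedAddCommGroup E] [NormedSpace 𝕜 E]
    {Ω : Type*} [MeasurableSpace Ω] {μ : Measure Ω} (e : StrongDual 𝕜 E ≃ₗᵢ[𝕜] Lp 𝕜 1 μ) :
    PropH.{a, b} 𝕜 {φ : WeakDual 𝕜 E | ‖WeakDual.toStrongDual φ‖ ≤ 1} (Metric.sphere 0 1) := by
  intro ι κ _ _ t x β l s ht hx hrel h
  let J : Lp 𝕜 1 μ →L[𝕜] WeakDual 𝕜 E :=
    (NormedSpace.Dual.continuousLinearMapToWeakDual).comp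
      (e.symm.toContinuousLinearEquiv : Lp 𝕜 1 μ →L[𝕜] StrongDual 𝕜 E)
  have hJ0 : ∀ ξ, J ξ = StrongDual.toWeakDual (e.symm ξ) := fun ξ => rfl
  have hJ : ∀ φ : WeakDual 𝕜 E, J (e (WeakDual.toStrongDual φ)) = φ := by
    intro φ
    simp [hJ0]
  have h' : ∀ ξ : Lp 𝕜 1 μ, ‖ξ‖ ≤ 1 →
      ∃ z : κ → 𝕜, ∀ i, ‖((l i).comp J) ξ + ∑ k, β i k * z k‖ ≤ s i := by
    intro ξ hξ
    obtain ⟨z, hz⟩ := h (J ξ) (by simpa [hJ0] using hξ)
    refine ⟨z, fun i => ?_⟩
    obtain ⟨α, hα1, hα2⟩ := RCLike.exists_norm_eq_mul_self (l i (J ξ) + ∑ k, β i k * z k)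
    have := hz α (by simpa using hα1) i
    rw [← hα2, ofReal_re] at this
    exact this
  have hs : ∀ i, 0 ≤ s i := fun i => by
    obtain ⟨z, hz⟩ := h' 0 (by simp)
    exact (norm_nonneg _).trans (hz i)
  have key := l1_core (fun i => (t i : 𝕜) • e (WeakDual.toStrongDual (x i))) β
    (fun i => (l i).comp J) s (fun k => by
      have := congrArg (fun φ => e (WeakDual.toStrongDual φ)) (hrel k)
      simpa only [map_sum, map_smul, map_zero] using this) h'
  simp only [ContinuousLinearMap.comp_apply, map_smul, hJ, smul_eq_mul, re_ofReal_mul] at key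
  refine key.trans (Finset.sum_le_sum fun i _ => ?_)
  rw [norm_smul, norm_ofReal, abs_of_nonneg (ht i), e.norm_map, mul_comm (t i) (s i)]
  exact mul_le_mul_of_nonneg_left (mul_le_of_le_one_right (ht i) (hx i)) (hs i)

end Pool.Agent.Lib.MP_c64b61_an
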