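import Pool.Agent.Lib.MP_c64b61_an.Select

/-!
The dual decomposition property for a Choquet simplex, from the Riesz decomposition property.
-/

open Set Filter Topology Pointwise

namespace Pool.Agent.Lib.MP_c64b61_an

universe a b

section Riesz

variable {W : Type*} [AddCommGroup W] [Module ℝ W]

/-- A pointed convex cone with the Riesz decomposition property for two summands. -/
structure RieszCone (P : Set W) : Prop where
  zero : (0 : W) ∈ P
  add : ∀ x ∈ P, ∀ y ∈ P, x + y ∈ P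
  smul : ∀ c : ℝ, 0 ≤ c → ∀ x ∈ P, c • x ∈ P
  pointed : ∀ x ∈ P, ∀ y ∈ P, x + y = 0 → x = 0
  two : ∀ x₁ ∈ P, ∀ x₂ ∈ P, ∀ y₁ ∈ P, ∀ y₂ ∈ P, x₁ + x₂ = y₁ + y₂ →
    ∃ w ∈ P, x₁ - w ∈ P ∧ y₁ - w ∈ P ∧ x₂ - (y₁ - w) ∈ P

variable {P : Set W}

theorem RieszCone.sum_mem (hP : RieszCone P) {ι : Type*} (s : Finset ι) (x : ι → W)
    (hx : ∀ i ∈ s, x i ∈ P) : ∑ i ∈ s, x i ∈ P :=
  Finset.sum_induction x (· ∈ P) (fun a b ha hb => hP.add a ha b hb) hP.zero hx

theorem RieszCone.left (hP : RieszCone P) {κ : Type*} (J : Finset κ) (y : κ → W) :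
    ∀ x₁ ∈ P, ∀ x₂ ∈ P, (∀ j ∈ J, y j ∈ P) → x₁ + x₂ = ∑ j ∈ J, y j →
      ∃ c : κ → W, (∀ j ∈ J, c j ∈ P ∧ y j - c j ∈ P) ∧ ∑ j ∈ J, c j = x₁ := by
  classical
  induction J using Finset.induction_on with
  | empty =>
    intro x₁ h₁ x₂ h₂ _ h
    exact ⟨0, by simp, by simpa using (hP.pointed x₁ h₁ x₂ h₂ (by simpa using h)).symm⟩
  | insert j J hj ih =>
    intro x₁ h₁ x₂ h₂ hy h
    rw [Finset.sum_insert hj] at h
    have hy' : ∀ k ∈ J, y k ∈ P := fun k hk => hy k (Finset.mem_insert_of_mem hk)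
    obtain ⟨w, hw, w1, w2, w3⟩ := hP.two x₁ h₁ x₂ h₂ (y j) (hy j (Finset.mem_insert_self _ _))
      _ (hP.sum_mem J y hy') h
    obtain ⟨c, hc1, hc2⟩ := ih _ w1 _ w3 hy' (by rw [← sub_eq_iff_eq_add'.2 h]; abel)
    refine ⟨Function.update c j w, fun k hk => ?_, ?_⟩
    · rcases Finset.mem_insert.1 hk with rfl | hk'
      · rw [Function.update_self]; exact ⟨hw, w2⟩
      · rw [Function.update_of_ne (ne_of_mem_of_not_mem hk' hj)]; exact hc1 k hk'
    · rw [Finset.sum_insert hj, Function.update_self,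
        Finset.sum_congr rfl fun k hk => Function.update_of_ne (ne_of_mem_of_not_mem hk hj) _ _, hc2]
      abel

theorem RieszCone.table (hP : RieszCone P) {ι κ : Type*} (I : Finset ι) (J : Finset κ)
    (x : ι → W) : ∀ y : κ → W, (∀ i ∈ I, x i ∈ P) → (∀ j ∈ J, y j ∈ P) →
      ∑ i ∈ I, x i = ∑ j ∈ J, y j → ∃ r : ι → κ → W, (∀ i ∈ I, ∀ j ∈ J, r i j ∈ P) ∧
        (∀ i ∈ I, ∑ j ∈ J, r i j = x i) ∧ ∀ j ∈ J, ∑ i ∈ I, r i j = y j := by
  classical
  induction I using Finset.induction_on with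
  | empty =>
    intro y _ hy h
    refine ⟨0, by simp, by simp, fun j hj => ?_⟩
    rw [Finset.sum_empty] at h ⊢
    rw [← Finset.add_sum_erase J y hj] at h
    exact (hP.pointed _ (hy j hj) _
      (hP.sum_mem _ y fun k hk => hy k (Finset.mem_of_mem_erase hk)) h.symm).symm
  | insert i I hi ih =>
    intro y hx hy h
    rw [Finset.sum_insert hi] at h
    have hx' : ∀ k ∈ I, x k ∈ P := fun k hk => hx k (Finset.mem_insert_of_mem hk)
    obtain ⟨c, hc1, hc2⟩ := hP.left J y _ (hx i (Finset.mem_insert_self _ _)) _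
      (hP.sum_mem I x hx') hy h
    obtain ⟨r, hr1, hr2, hr3⟩ := ih (fun j => y j - c j) hx' (fun j hj => (hc1 j hj).2) (by
      rw [Finset.sum_sub_distrib, hc2, ← h]; abel)
    refine ⟨Function.update r i c, fun k hk j hj => ?_, fun k hk => ?_, fun j hj => ?_⟩
    · rcases Finset.mem_insert.1 hk with rfl | hk'
      · rw [Function.update_self]; exact (hc1 j hj).1
      · rw [Function.update_of_ne (ne_of_mem_of_not_mem hk' hi)]; exact hr1 k hk' j hj
    · rcases Finset.mem_insert.1 hk with rfl | hk'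
      · rw [Function.update_self]; exact hc2
      · rw [Function.update_of_ne (ne_of_mem_of_not_mem hk' hi)]; exact hr2 k hk'
    · rw [Finset.sum_insert hi, Function.update_self,
        Finset.sum_congr rfl fun k hk => by rw [Function.update_of_ne (ne_of_mem_of_not_mem hk hi)],
        hr3 j hj]
      abel

theorem RieszCone.one_relation (hP : RieszCone P) {Λ : Type*} [Fintype Λ] (w : Λ → W)
    (hw : ∀ l, w l ∈ P) (γ : Λ → ℝ) (hγ : ∑ l, γ l • w l = 0) :
    ∃ (w' : (Λ × Λ) ⊕ Λ → W) (c : Λ → (Λ × Λ) ⊕ Λ → ℝ), (∀ m, w' m ∈ P) ∧ (∀ l m, 0 ≤ c l m) ∧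
      (∀ l, w l = ∑ m, c l m • w' m) ∧ ∀ m, ∑ l, γ l * c l m = 0 := by
  classical
  let I : Finset Λ := Finset.univ.filter fun l => 0 < γ l
  let J : Finset Λ := Finset.univ.filter fun l => γ l < 0
  have hI : ∀ l, l ∈ I ↔ 0 < γ l := fun l => by simp [I]
  have hJ : ∀ l, l ∈ J ↔ γ l < 0 := fun l => by simp [J]
  obtain ⟨r, hr1, hr2, hr3⟩ := hP.table I J (fun l => γ l • w l) (fun l => (-γ l) • w l)
    (fun l hl => hP.smul _ ((hI l).1 hl).le _ (hw l))
    (fun l hl => hP.smul _ (neg_nonneg.2 ((hJ l).1 hl).le) _ (hw l)) (by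
      rw [← sub_eq_zero, ← hγ]
      simp only [I, J, Finset.sum_filter, neg_smul]
      rw [← Finset.sum_sub_distrib]
      refine Finset.sum_congr rfl fun l _ => ?_
      rcases lt_trichotomy (γ l) 0 with h | h | h
      · simp [h, h.not_gt]
      · simp [h]
      · simp [h, h.not_gt])
  refine ⟨Sum.elim (fun p => if p.1 ∈ I ∧ p.2 ∈ J then r p.1 p.2 else 0) w,
    fun l => Sum.elim (fun p => if p.1 ∈ I ∧ p.2 ∈ J then
      (if p.1 = l then (γ p.1)⁻¹ else 0) + (if p.2 = l then (-γ p.2)⁻¹ else 0) else 0)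
      (fun l' => if l' = l ∧ γ l' = 0 then 1 else 0), ?_, ?_, ?_, ?_⟩
  · rintro (p | l)
    · simp only [Sum.elim_inl]
      split_ifs with h
      · exact hr1 _ h.1 _ h.2
      · exact hP.zero
    · exact hw l
  · rintro l (p | l')
    · simp only [Sum.elim_inl]
      by_cases h : p.1 ∈ I ∧ p.2 ∈ J
      · rw [if_pos h]
        have h1 := (hI _).1 h.1
        have h2 := neg_pos.2 ((hJ _).1 h.2)
        refine add_nonneg ?_ ?_ <;> split_ifs <;> positivity
      · rw [if_neg h]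
    · simp only [Sum.elim_inr]
      split_ifs <;> norm_num
  · intro l
    rw [Fintype.sum_sum_type]
    simp only [Sum.elim_inl, Sum.elim_inr]
    have e1 : ∑ p : Λ × Λ, (if p.1 ∈ I ∧ p.2 ∈ J then
        (if p.1 = l then (γ p.1)⁻¹ else 0) + (if p.2 = l then (-γ p.2)⁻¹ else 0) else 0) •
          (if p.1 ∈ I ∧ p.2 ∈ J then r p.1 p.2 else 0) =
        ∑ p ∈ I, ∑ q ∈ J, ((if p = l then (γ p)⁻¹ else 0) • r p q +
          (if q = l then (-γ q)⁻¹ else 0) • r p q) := by
      rw [← Finset.sum_product', ← Finset.sum_subset (Finset.subset_univ (I ×ˢ J))]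
      · refine Finset.sum_congr rfl fun p hp => ?_
        have := Finset.mem_product.1 hp
        rw [if_pos this, if_pos this, add_smul]
      · intro p _ hp
        rw [if_neg (fun h => hp (Finset.mem_product.2 h)), zero_smul]
    rw [e1]
    simp only [Finset.sum_add_distrib]
    rw [Finset.sum_comm (s := I) (t := J) (f := fun p q => (if q = l then (-γ q)⁻¹ else 0) • r p q)]
    simp only [← Finset.smul_sum]
    rw [Finset.sum_congr rfl fun p hp => by rw [hr2 p hp],
      Finset.sum_congr (s₁ := J) rfl fun q hq => by rw [hr3 q hq]]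
    simp only [ite_smul, zero_smul, one_smul, Finset.sum_ite_eq', smul_smul, ite_and,
      Finset.mem_univ, if_true]
    have a1 := hI l
    have a2 := hJ l
    rcases lt_trichotomy (γ l) 0 with h | h | h
    · simp [a1, a2, h, h.not_gt, h.ne]
    · simp [h]
    · simp [a1, a2, h, h.not_gt, h.ne']
  · rintro (p | l')
    · simp only [Sum.elim_inl]
      by_cases h : p.1 ∈ I ∧ p.2 ∈ J
      · simp only [if_pos h, mul_add, Finset.sum_add_distrib, mul_ite, mul_zero,
          Finset.sum_ite_eq, Finset.mem_univ, if_true]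
        have h1 := ((hI _).1 h.1).ne'
        have h2 := ((hJ _).1 h.2).ne
        field_simp
        ring
      · simp [if_neg h]
    · simp only [Sum.elim_inr]
      refine Finset.sum_eq_zero fun l _ => ?_
      split_ifs with h
      · rw [← h.1, h.2, zero_mul]
      · rw [mul_zero]

theorem RieszCone.relations (hP : RieszCone P) {ι : Type a} {κ : Type b} [Fintype ι]
    (u : ι → W) (hu : ∀ i, u i ∈ P) (β : ι → κ → ℝ) (hβ : ∀ k, ∑ i, β i k • u i = 0)
    (T : Finset κ) :
    ∃ (Λ : Type a) (_ : Fintype Λ) (w : Λ → W) (c : ι → Λ → ℝ), (∀ m, w m ∈ P) ∧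
      (∀ i m, 0 ≤ c i m) ∧ (∀ i, u i = ∑ m, c i m • w m) ∧
      ∀ k ∈ T, ∀ m, ∑ i, β i k * c i m = 0 := by
  classical
  induction T using Finset.induction_on with
  | empty =>
    refine ⟨ι, inferInstance, u, fun i m => if m = i then 1 else 0, hu, fun i m => ?_,
      fun i => by simp, by simp⟩
    dsimp only
    split_ifs <;> norm_num
  | insert k T _ ih =>
    obtain ⟨Λ, _, w, c, h1, h2, h3, h4⟩ := ih
    obtain ⟨w', c', g1, g2, g3, g4⟩ := hP.one_relation w h1 (fun l => ∑ i, β i k * c i l) (by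
      rw [← hβ k]
      simp only [Finset.sum_smul]
      rw [Finset.sum_comm]
      refine Finset.sum_congr rfl fun i _ => ?_
      rw [h3 i, Finset.smul_sum]
      exact Finset.sum_congr rfl fun l _ => (smul_smul _ _ _).symm)
    have hswap : ∀ k' m, ∑ i, β i k' * ∑ l, c i l * c' l m =
        ∑ l, (∑ i, β i k' * c i l) * c' l m := by
      intro k' m
      simp only [Finset.mul_sum, Finset.sum_mul]
      rw [Finset.sum_comm]
      exact Finset.sum_congr rfl fun l _ => Finset.sum_congr rfl fun i _ => by ring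
    refine ⟨(Λ × Λ) ⊕ Λ, inferInstance, w', fun i m => ∑ l, c i l * c' l m, g1,
      fun i m => Finset.sum_nonneg fun l _ => mul_nonneg (h2 i l) (g2 l m), fun i => ?_,
      fun k' hk' m => ?_⟩
    · simp only [Finset.sum_smul]
      rw [Finset.sum_comm, h3 i]
      refine Finset.sum_congr rfl fun l _ => ?_
      rw [g3 l, Finset.smul_sum]
      exact Finset.sum_congr rfl fun m _ => smul_smul _ _ _
    · rw [hswap]
      rcases Finset.mem_insert.1 hk' with rfl | hk''
      · exact g4 m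
      · simp [h4 k' hk'']

end Riesz

section Cone

variable {V : Type*} [AddCommGroup V] [Module ℝ V]

/-- The cone generated by `X × {1}`. -/
def cone (X : Set V) : Set (V × ℝ) := {p | ∃ t : ℝ, 0 ≤ t ∧ ∃ x ∈ X, p = t • (x, (1 : ℝ))}

theorem rieszCone_of_lattice {X : Set V} (hXc : Convex ℝ X) (hne : X.Nonempty)
    (hlat : ∀ u ∈ cone X - cone X, ∀ v ∈ cone X - cone X, ∃ w ∈ cone X - cone X,
      w - u ∈ cone X ∧ w - v ∈ cone X ∧
        ∀ w' ∈ cone X - cone X, w' - u ∈ cone X → w' - v ∈ cone X → w' - w ∈ cone X) :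
    RieszCone (cone X) := by
  obtain ⟨x₀, hx₀⟩ := hne
  have hzero : (0 : V × ℝ) ∈ cone X := ⟨0, le_rfl, x₀, hx₀, by simp⟩
  have hneg : ∀ p ∈ cone X, -p ∈ cone X - cone X := fun p hp => ⟨0, hzero, p, hp, by simp⟩
  refine ⟨hzero, ?_, ?_, ?_, ?_⟩
  · rintro _ ⟨s, hs, x, hx, rfl⟩ _ ⟨t, ht, y, hy, rfl⟩
    rcases eq_or_lt_of_le (add_nonneg hs ht) with h | h
    · have hs0 : s = 0 := by linarith
      have ht0 : t = 0 := by linarith
      subst hs0 ht0
      simpa using hzero
    · refine ⟨s + t, h.le, (s / (s + t)) • x + (t / (s + t)) • y,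
        hXc hx hy (by positivity) (by positivity) (by field_simp), ?_⟩
      refine Prod.ext ?_ (by simp)
      simp only [Prod.smul_mk, Prod.mk_add_mk, smul_add, smul_smul]
      rw [mul_div_cancel₀ _ h.ne', mul_div_cancel₀ _ h.ne']
  · rintro c hc _ ⟨t, ht, x, hx, rfl⟩
    exact ⟨c * t, mul_nonneg hc ht, x, hx, by rw [smul_smul]⟩
  · rintro _ ⟨s, hs, x, hx, rfl⟩ _ ⟨t, ht, y, hy, rfl⟩ h
    have := congrArg Prod.snd h
    simp only [Prod.smul_mk, Prod.mk_add_mk, smul_eq_mul, mul_one, Prod.snd_zero] at this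
    have hs0 : s = 0 := by linarith
    rw [hs0, zero_smul]
  · intro x₁ h₁ x₂ h₂ y₁ k₁ y₂ k₂ h
    obtain ⟨w, -, w1, w2, w3⟩ := hlat _ (hneg x₁ h₁) _ (hneg y₁ k₁)
    refine ⟨-w, ?_, by simpa [add_comm] using w1, by simpa [add_comm] using w2, ?_⟩
    · have := w3 0 ⟨0, hzero, 0, hzero, by simp⟩ (by simpa using h₁) (by simpa using k₁)
      simpa using this
    · have := w3 (x₂ - y₁) ⟨x₂, h₂, y₁, k₁, rfl⟩ (by
        have : x₂ - y₁ - -x₁ = y₂ := by rw [← sub_eq_iff_eq_add'.2 h]; abel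
        rw [this]; exact k₂) (by simpa using h₂)
      convert this using 1
      abel

theorem propH_simplex [TopologicalSpace V] {X : Set V} (hP : RieszCone (cone X)) :
    PropH.{a, b} ℝ (X ×ˢ ({1} : Set ℝ)) ({1} : Set ℝ) := by
  intro ι κ _ _ t x β l s ht hx hrel h
  have hx2 : ∀ i, (x i).2 = 1 := fun i => (hx i).2
  obtain ⟨Λ, _, w, c, h1, h2, h3, h4⟩ := hP.relations (fun i => t i • x i)
    (fun i => ⟨t i, ht i, (x i).1, (hx i).1, by rw [← hx2 i]⟩) β hrel Finset.univ
  choose τ hτ ξ hξ hw using h1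
  choose z hz using fun m => h (ξ m, 1) ⟨hξ m, rfl⟩
  have hz' : ∀ m i, l i (ξ m, 1) + ∑ k, β i k * z m k ≤ s i := fun m i => by
    simpa using hz m 1 rfl i
  have e1 : ∀ i, t i = ∑ m, c i m * τ m := by
    intro i
    have := congrArg Prod.snd (h3 i)
    simpa [hx2 i, Prod.snd_sum, hw] using this
  have e2 : ∀ i, t i * l i (x i) = ∑ m, c i m * τ m * l i (ξ m, 1) := by
    intro i
    have := congrArg (l i) (h3 i)
    simp only [map_smul, map_sum, hw, smul_eq_mul] at this
    rw [this]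
    exact Finset.sum_congr rfl fun m _ => by ring
  have e3 : ∑ i, ∑ m, c i m * τ m * ∑ k, β i k * z m k = 0 := by
    rw [Finset.sum_comm]
    refine Finset.sum_eq_zero fun m _ => ?_
    simp only [Finset.mul_sum]
    rw [Finset.sum_comm]
    refine Finset.sum_eq_zero fun k _ => ?_
    have : ∑ i, c i m * τ m * (β i k * z m k) = (∑ i, β i k * c i m) * (τ m * z m k) := by
      rw [Finset.sum_mul]
      exact Finset.sum_congr rfl fun i _ => by ring
    rw [this, h4 k (Finset.mem_univ k) m, zero_mul]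
  simp only [RCLike.re_to_real]
  calc ∑ i, t i * l i (x i)
      = ∑ i, ∑ m, c i m * τ m * (l i (ξ m, 1) + ∑ k, β i k * z m k) := by
        simp only [mul_add, Finset.sum_add_distrib, e3, add_zero, e2]
    _ ≤ ∑ i, ∑ m, c i m * τ m * s i :=
        Finset.sum_le_sum fun i _ => Finset.sum_le_sum fun m _ =>
          mul_le_mul_of_nonneg_left (hz' m i) (mul_nonneg (h2 i m) (hτ m))
    _ = ∑ i, t i * s i := by
        simp only [e1, Finset.sum_mul]

end Cone

end Pool.Agent.Lib.MP_c64b61_an
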