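import Pool.Agent.Lib.MP_c64b61_an.Abstract
import Pool.Agent.Lib.MP_c64b61_an.LOne
import Pool.Agent.Lib.MP_c64b61_an.Simplex

/-!
The simplex case and the dual ball case.
-/

open Set Filter Topology Bornology MeasureTheory Pointwise

namespace Pool.Agent.Lib.MP_c64b61_an

theorem sections_nonempty {V : Type*} [AddCommGroup V] [Module ℝ V] [TopologicalSpace V]
    [IsTopologicalAddGroup V] [ContinuousSMul ℝ V] [LocallyConvexSpace ℝ V] [T2Space V]
    {F : Type*} [AddCommGroup F] [Module ℝ F] [TopologicalSpace F]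
    {X : Set V} (hX : IsCompact X) (hXc : Convex ℝ X) {Ω : Set (V × F)} (hΩ : IsOpen Ω)
    (hΩc : Convex ℝ Ω) (f : V → F) (h : ∀ e ∈ X.extremePoints ℝ, (e, f e) ∈ Ω) :
    ∀ x ∈ X, ∃ z, (x, z) ∈ Ω := by
  have := subset_of_extremePoints_subset (W := Prod.fst '' Ω) hX hXc (isOpenMap_fst Ω hΩ)
    (hΩc.linear_image (LinearMap.fst ℝ V F)) fun e he => ⟨_, h e he, rfl⟩
  intro x hx
  obtain ⟨⟨x', z⟩, hz, rfl⟩ := this hx
  exact ⟨z, hz⟩

theorem simplex_case {V : Type*} [AddCommGroup V] [Module ℝ V] [TopologicalSpace V]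
    [IsTopologicalAddGroup V] [ContinuousSMul ℝ V] [LocallyConvexSpace ℝ V] [T2Space V]
    {F : Type*} [AddCommGroup F] [Module ℝ F] [UniformSpace F]
    [IsUniformAddGroup F] [ContinuousSMul ℝ F] [LocallyConvexSpace ℝ F] [CompleteSpace F]
    [T2Space F] [FirstCountableTopology F]
    {X : Set V} (hX : IsCompact X) (hXc : Convex ℝ X)
    (hlat : ∀ u ∈ cone X - cone X, ∀ v ∈ cone X - cone X, ∃ w ∈ cone X - cone X,
      w - u ∈ cone X ∧ w - v ∈ cone X ∧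
        ∀ w' ∈ cone X - cone X, w' - u ∈ cone X → w' - v ∈ cone X → w' - w ∈ cone X)
    (hL : IsLindelof (X.extremePoints ℝ))
    (f : V → F) (hf : ContinuousOn f (X.extremePoints ℝ))
    (hb : IsVonNBounded ℝ (f '' X.extremePoints ℝ)) :
    ∃ (u : ℕ → V → F) (g : V → F), (∀ n, Continuous (u n)) ∧
      (∀ n (x y : V) (s t : ℝ), s + t = 1 → u n (s • x + t • y) = s • u n x + t • u n y) ∧
      (∀ x ∈ X, Tendsto (fun n => u n x) atTop (𝓝 (g x))) ∧
      ∀ e ∈ X.extremePoints ℝ, g e = f e := by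
  refine abstract_main hX hXc hL f hf hb fun Ω hΩ hΩc hgr => ?_
  rcases X.eq_empty_or_nonempty with rfl | hne
  · exact ⟨0, continuous_const, by simp, by simp⟩
  have hsec := sections_nonempty hX hXc hΩ hΩc f hgr
  let P : ((V × ℝ) × F) →L[ℝ] V × F :=
    (ContinuousLinearMap.fst ℝ V ℝ).prodMap (ContinuousLinearMap.id ℝ F)
  obtain ⟨G, hG⟩ := selection (𝕜 := ℝ) (W := V × ℝ) (X := X ×ˢ ({1} : Set ℝ)) (S := {1})
    (hX.prod isCompact_singleton) (hXc.prod (convex_singleton _)) isCompact_singleton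
    (fun α hα => by rw [mem_singleton_iff.1 hα, norm_one])
    (propH_simplex (rieszCone_of_lattice hXc hne hlat)) (Ω := P ⁻¹' Ω)
    (hΩ.preimage P.continuous) (hΩc.linear_preimage P.toLinearMap) (by
      rintro ⟨x, c⟩ ⟨hx, -⟩
      obtain ⟨z, hz⟩ := hsec x hx
      refine ⟨z, fun α hα => ?_⟩
      rw [mem_singleton_iff.1 hα, one_smul]
      exact hz)
  refine ⟨fun x => G (x, 1), by fun_prop, fun x y s t hst => ?_, fun x hx => hG (x, 1) ⟨hx, rfl⟩⟩
  have : ((s • x + t • y, 1) : V × ℝ) = s • (x, 1) + t • (y, 1) := by simp [hst]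
  simp only [this, map_add, map_smul]

universe u

theorem symmetric_case {𝕜 : Type} [RCLike 𝕜] {W : Type u} [AddCommGroup W] [Module 𝕜 W]
    [Module ℝ W] [IsScalarTower ℝ 𝕜 W] [TopologicalSpace W] [IsTopologicalAddGroup W]
    [ContinuousSMul 𝕜 W] [ContinuousSMul ℝ W] [LocallyConvexSpace ℝ W] [T2Space W]
    {F : Type*} [AddCommGroup F] [Module 𝕜 F] [Module ℝ F] [IsScalarTower ℝ 𝕜 F] [UniformSpace F]
    [IsUniformAddGroup F] [ContinuousSMul 𝕜 F] [LocallyConvexSpace ℝ F] [CompleteSpace F]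
    [T2Space F] [FirstCountableTopology F]
    {X : Set W} (hX : IsCompact X) (hXc : Convex ℝ X)
    (hsm : ∀ α : 𝕜, ‖α‖ ≤ 1 → ∀ x ∈ X, α • x ∈ X)
    (hH : PropH.{u, u} 𝕜 X (Metric.sphere 0 1))
    (hL : IsLindelof (X.extremePoints ℝ))
    (f : W → F) (hf : ContinuousOn f (X.extremePoints ℝ))
    (hb : IsVonNBounded ℝ (f '' X.extremePoints ℝ))
    (hhom : ∀ α : 𝕜, ‖α‖ = 1 → ∀ x ∈ X.extremePoints ℝ, α • x ∈ X.extremePoints ℝ →
      f (α • x) = α • f x) :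
    ∃ (u : ℕ → W → F) (g : W → F), (∀ n, Continuous (u n)) ∧
      (∀ n (x y : W) (s t : ℝ), s + t = 1 →
        u n (s • x + t • y) = s • u n x + t • u n y) ∧
      (∀ x ∈ X, Tendsto (fun n => u n x) atTop (𝓝 (g x))) ∧
      ∀ e ∈ X.extremePoints ℝ, g e = f e := by
  have i3 := IsScalarTower.continuousSMul (M := ℝ) (α := F) 𝕜
  have hext : ∀ α : 𝕜, ‖α‖ = 1 → ∀ x ∈ X.extremePoints ℝ, α • x ∈ X.extremePoints ℝ := by
    intro α hα x hx
    have hα0 : α ≠ 0 := by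
      rintro rfl
      simp at hα
    have hinv : ‖α⁻¹‖ ≤ 1 := by rw [norm_inv, hα, inv_one]
    rw [mem_extremePoints_iff_left] at hx ⊢
    refine ⟨hsm α hα.le x hx.1, fun y hy z hz ⟨s, t, hs, ht, hst, h⟩ => ?_⟩
    have := hx.2 _ (hsm _ hinv y hy) _ (hsm _ hinv z hz) ⟨s, t, hs, ht, hst, by
      rw [← smul_comm α⁻¹ s, ← smul_comm α⁻¹ t, ← smul_add, h, inv_smul_smul₀ hα0]⟩
    rw [← this, smul_inv_smul₀ hα0]
  refine abstract_main hX hXc hL f hf hb fun O hO hOc hgr => ?_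
  let O' : Set (W × F) := {p | ∀ α ∈ Metric.sphere (0 : 𝕜) 1, α • p ∈ O}
  have hO' : IsOpen O' := by
    rw [isOpen_iff_eventually]
    intro p hp
    refine (isCompact_sphere (0 : 𝕜) 1).eventually_forall_of_forall_eventually
      (P := fun p α => α • p ∈ O) fun α hα => ?_
    have hc : Continuous fun q : (W × F) × 𝕜 => q.2 • q.1 := by fun_prop
    exact hc.continuousAt.eventually_mem (hO.mem_nhds (hp α hα))
  have hO'c : Convex ℝ O' := by
    intro p hp q hq s t hs ht hst α hα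
    rw [smul_add, smul_comm α s, smul_comm α t]
    exact hOc (hp α hα) (hq α hα) hs ht hst
  have hsec := sections_nonempty hX hXc hO' hO'c f fun x hx α hα => by
    have hα' : ‖α‖ = 1 := by simpa using hα
    rw [Prod.smul_mk, ← hhom α hα' x hx (hext α hα' x hx)]
    exact hgr _ (hext α hα' x hx)
  obtain ⟨G, hG⟩ := selection (𝕜 := 𝕜) (W := W) (X := X) (S := Metric.sphere 0 1)
    hX hXc (isCompact_sphere _ _) (fun α hα => le_of_eq (by simpa using hα))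
    hH hO hOc hsec
  refine ⟨G, G.continuous, fun x y s t _ => ?_, hG⟩
  rw [map_add, G.map_smul_of_tower, G.map_smul_of_tower]

theorem weakDual_tower {𝕜 : Type} [RCLike 𝕜] {E : Type u} [NormedAddCommGroup E]
    [NormedSpace 𝕜 E] : IsScalarTower ℝ 𝕜 (WeakDual 𝕜 E) :=
  inferInstanceAs (IsScalarTower ℝ 𝕜 (E →L[𝕜] 𝕜))

theorem weakDual_lcs {𝕜 : Type} [RCLike 𝕜] {E : Type u} [NormedAddCommGroup E]
    [NormedSpace 𝕜 E] : LocallyConvexSpace ℝ (WeakDual 𝕜 E) :=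
  @WeakBilin.locallyConvexSpace 𝕜 (E →L[𝕜] 𝕜) E _ _ _ _ _ _ _ _ (topDualPairing 𝕜 E)

theorem ball_compact {𝕜 : Type} [RCLike 𝕜] {E : Type u} [NormedAddCommGroup E]
    [NormedSpace 𝕜 E] : IsCompact {φ : WeakDual 𝕜 E | ‖WeakDual.toStrongDual φ‖ ≤ 1} := by
  have := WeakDual.isCompact_closedBall (𝕜 := 𝕜) (E := E) 0 1
  convert this using 1
  ext φ
  simp

theorem ball_smul {𝕜 : Type} [RCLike 𝕜] {E : Type u} [NormedAddCommGroup E]
    [NormedSpace 𝕜 E] (α : 𝕜) (hα : ‖α‖ ≤ 1) (x : WeakDual 𝕜 E)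
    (hx : x ∈ {φ : WeakDual 𝕜 E | ‖WeakDual.toStrongDual φ‖ ≤ 1}) :
    α • x ∈ {φ : WeakDual 𝕜 E | ‖WeakDual.toStrongDual φ‖ ≤ 1} := by
  simp only [mem_ofPred_eq, map_smul, norm_smul] at hx ⊢
  exact mul_le_one₀ hα (norm_nonneg _) hx

theorem ball_convex {𝕜 : Type} [RCLike 𝕜] {E : Type u} [NormedAddCommGroup E]
    [NormedSpace 𝕜 E] : Convex ℝ {φ : WeakDual 𝕜 E | ‖WeakDual.toStrongDual φ‖ ≤ 1} := by
  have := weakDual_tower (𝕜 := 𝕜) (E := E)
  intro x hx y hy s t hs ht hst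
  simp only [mem_ofPred_eq] at hx hy ⊢
  rw [← algebraMap_smul 𝕜 s x, ← algebraMap_smul 𝕜 t y, map_add, map_smul, map_smul]
  refine (norm_add_le _ _).trans ?_
  rw [norm_smul, norm_smul, norm_algebraMap', norm_algebraMap', Real.norm_of_nonneg hs,
    Real.norm_of_nonneg ht]
  nlinarith

theorem ball_case {𝕜 : Type} [RCLike 𝕜] {E : Type u} [NormedAddCommGroup E] [NormedSpace 𝕜 E]
    {Ω : Type*} [MeasurableSpace Ω] {μ : Measure Ω} (e : StrongDual 𝕜 E ≃ₗᵢ[𝕜] Lp 𝕜 1 μ)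
    {F : Type*} [AddCommGroup F] [Module 𝕜 F] [Module ℝ F] [IsScalarTower ℝ 𝕜 F] [UniformSpace F]
    [IsUniformAddGroup F] [ContinuousSMul 𝕜 F] [LocallyConvexSpace ℝ F] [CompleteSpace F]
    [T2Space F] [FirstCountableTopology F]
    {X : Set (WeakDual 𝕜 E)} (hXdef : X = {φ : WeakDual 𝕜 E | ‖WeakDual.toStrongDual φ‖ ≤ 1})
    (hL : IsLindelof (X.extremePoints ℝ))
    (f : WeakDual 𝕜 E → F) (hf : ContinuousOn f (X.extremePoints ℝ))
    (hb : IsVonNBounded ℝ (f '' X.extremePoints ℝ))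
    (hhom : ∀ α : 𝕜, ‖α‖ = 1 → ∀ x ∈ X.extremePoints ℝ, α • x ∈ X.extremePoints ℝ →
      f (α • x) = α • f x) :
    ∃ (u : ℕ → WeakDual 𝕜 E → F) (g : WeakDual 𝕜 E → F), (∀ n, Continuous (u n)) ∧
      (∀ n (x y : WeakDual 𝕜 E) (s t : ℝ), s + t = 1 →
        u n (s • x + t • y) = s • u n x + t • u n y) ∧
      (∀ x ∈ X, Tendsto (fun n => u n x) atTop (𝓝 (g x))) ∧
      ∀ e ∈ X.extremePoints ℝ, g e = f e := by
  have i1 := weakDual_tower (𝕜 := 𝕜) (E := E)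
  have i2 := weakDual_lcs (𝕜 := 𝕜) (E := E)
  have h1 : IsCompact X := hXdef ▸ ball_compact
  have h2 : Convex ℝ X := hXdef ▸ ball_convex
  have h3 : ∀ α : 𝕜, ‖α‖ ≤ 1 → ∀ x ∈ X, α • x ∈ X := hXdef ▸ ball_smul
  have h4 : PropH.{u, u} 𝕜 X (Metric.sphere 0 1) := hXdef ▸ propH_ball e
  have h5 := symmetric_case (𝕜 := 𝕜) (W := WeakDual 𝕜 E) (F := F) (X := X) h1
  have h6 := h5 h2
  have h7 := h6 h3
  have h8 := h7 h4
  have h9 := h8 hL f hf hb
  exact h9 hhom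

open Classical in
/-- Extension by zero. -/
noncomputable def ext0 {V F : Type*} [Zero F] {A : Set V} (f : A → F) (e : V) : F :=
  if h : e ∈ A then f ⟨e, h⟩ else 0

theorem ext0_eq {V F : Type*} [Zero F] {A : Set V} (f : A → F) {e : V} (h : e ∈ A) :
    ext0 f e = f ⟨e, h⟩ := dif_pos h

theorem ext0_cont {V F : Type*} [TopologicalSpace V] [Zero F] [TopologicalSpace F]
    {A : Set V} (f : A → F) (hf : Continuous f) : ContinuousOn (ext0 f) A := by
  rw [continuousOn_iff_continuous_domRestrict]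
  convert hf using 1
  funext x
  exact ext0_eq f x.2

theorem ext0_image {V F : Type*} [Zero F] {A : Set V} (f : A → F) : ext0 f '' A = range f := by
  ext z
  constructor
  · rintro ⟨e, he, rfl⟩
    exact ⟨⟨e, he⟩, (ext0_eq f he).symm⟩
  · rintro ⟨e, rfl⟩
    exact ⟨e, e.2, ext0_eq f e.2⟩

end Pool.Agent.Lib.MP_c64b61_an
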