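import Mathlib

/-!
Extreme points of compact convex sets: a closed subset with convex complement contains an
extreme point, and affine functions that are small at a given extreme point.
-/

open Set Filter Topology

namespace Pool.Agent.Lib.MP_c64b61_an

variable {V : Type*} [AddCommGroup V] [Module ℝ V] [TopologicalSpace V]
  [IsTopologicalAddGroup V] [ContinuousSMul ℝ V] [LocallyConvexSpace ℝ V] [T2Space V]

/-- A nonempty closed subset of a compact convex set whose complement is convex contains an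
extreme point. -/
theorem exists_extreme_of_convex_diff {X C : Set V} (hX : IsCompact X) (hXc : Convex ℝ X)
    (hC : IsClosed C) (hCX : C ⊆ X) (hne : C.Nonempty) (hconv : Convex ℝ (X \ C)) :
    ∃ e ∈ C, e ∈ X.extremePoints ℝ := by
  let S : Set (Set V) := {D | D.Nonempty ∧ IsClosed D ∧ D ⊆ C ∧ Convex ℝ (X \ D)}
  obtain ⟨D, -, hD⟩ : ∃ D, D ⊆ C ∧ Minimal (· ∈ S) D := by
    refine zorn_superset_nonempty S ?_ C ⟨hne, hC, Subset.rfl, hconv⟩
    intro F hFS hF hFne
    refine ⟨⋂₀ F, ⟨?_, isClosed_sInter fun t ht => (hFS ht).2.1, ?_, ?_⟩,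
      fun s hs => sInter_subset_of_mem hs⟩
    · have : Nonempty F := hFne.to_subtype
      rw [sInter_eq_iInter]
      refine IsCompact.nonempty_iInter_of_directed_nonempty_isCompact_isClosed _
        (fun t u => ?_) (fun t => (hFS t.mem).1)
        (fun t => hX.of_isClosed_subset (hFS t.mem).2.1 ((hFS t.mem).2.2.1.trans hCX))
        fun t => (hFS t.mem).2.1
      obtain htu | hut := hF.total t.mem u.mem
      exacts [⟨t, Subset.rfl, htu⟩, ⟨u, hut, Subset.rfl⟩]
    · obtain ⟨t, ht⟩ := hFne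
      exact (sInter_subset_of_mem ht).trans (hFS ht).2.2.1
    · intro x hx y hy a b ha hb hab
      obtain ⟨hxX, hx⟩ := hx
      obtain ⟨hyX, hy⟩ := hy
      simp only [mem_sInter, not_forall] at hx hy
      obtain ⟨t, ht, hxt⟩ := hx
      obtain ⟨u, hu, hyu⟩ := hy
      refine ⟨hXc hxX hyX ha hb hab, fun h => ?_⟩
      obtain htu | hut := hF.total ht hu
      · exact ((hFS ht).2.2.2 ⟨hxX, hxt⟩ ⟨hyX, fun h' => hyu (htu h')⟩ ha hb hab).2 (h t ht)
      · exact ((hFS hu).2.2.2 ⟨hxX, fun h' => hxt (hut h')⟩ ⟨hyX, hyu⟩ ha hb hab).2 (h u hu)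
  obtain ⟨⟨e, he⟩, hDc, hDC, hDconv⟩ := hD.prop
  have hDX : D ⊆ X := hDC.trans hCX
  -- Step A
  have stepA : ∀ w ∈ X \ D, ∀ y ∈ X, ∀ t : ℝ, 0 ≤ t → t < 1 →
      t • y + (1 - t) • w ∈ X \ D := by
    intro w hw y hy t ht0 ht1
    refine ⟨hXc hy hw.1 ht0 (by linarith) (by ring), fun hmem => ?_⟩
    let T : V → V := fun v => t • v + (1 - t) • w
    have hTc : Continuous T := by fun_prop
    have hTX : ∀ v ∈ X, T v ∈ X := fun v hv => hXc hv hw.1 ht0 (by linarith) (by ring)
    have hsub : X ∩ T ⁻¹' D ⊆ D := by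
      intro v hv
      by_contra hvD
      exact (hDconv ⟨hv.1, hvD⟩ hw ht0 (by linarith) (by ring)).2 hv.2
    have hS : X ∩ T ⁻¹' D ∈ S := by
      refine ⟨⟨y, hy, hmem⟩, hX.isClosed.inter (hDc.preimage hTc), hsub.trans hDC, ?_⟩
      intro p hp q hq a b ha hb hab
      refine ⟨hXc hp.1 hq.1 ha hb hab, fun h => ?_⟩
      have hp' : T p ∈ X \ D := ⟨hTX p hp.1, fun h' => hp.2 ⟨hp.1, h'⟩⟩
      have hq' : T q ∈ X \ D := ⟨hTX q hq.1, fun h' => hq.2 ⟨hq.1, h'⟩⟩
      have := hDconv hp' hq' ha hb hab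
      apply this.2
      have heq : a • T p + b • T q = T (a • p + b • q) := by
        have hb' : b = 1 - a := by linarith
        subst hb'
        simp only [T]
        module
      rw [heq]
      exact h.2
    have hDT : D ⊆ X ∩ T ⁻¹' D := hD.le_of_le hS hsub
    have hiter : ∀ n : ℕ, t ^ n • e + (1 - t ^ n) • w ∈ D := by
      intro n
      induction n with
      | zero => simpa using he
      | succ n ih =>
        have := (hDT ih).2
        have heq : T (t ^ n • e + (1 - t ^ n) • w) = t ^ (n + 1) • e + (1 - t ^ (n + 1)) • w := by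
          simp only [T, pow_succ]
          module
        rwa [mem_preimage, heq] at this
    have hlim : Tendsto (fun n : ℕ => t ^ n • e + (1 - t ^ n) • w) atTop (𝓝 w) := by
      have h0 : Tendsto (fun n : ℕ => t ^ n) atTop (𝓝 0) :=
        tendsto_pow_atTop_nhds_zero_of_lt_one ht0 ht1
      have := (h0.smul_const e).add (((tendsto_const_nhds (x := (1 : ℝ))).sub h0).smul_const w)
      simpa using this
    exact hw.2 (hDc.mem_of_tendsto hlim (Eventually.of_forall hiter))
  -- Step B
  have hsingle : D = {e} := by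
    refine Subset.antisymm (fun a ha => ?_) (singleton_subset_iff.2 he)
    by_contra hae
    obtain ⟨l, hl⟩ := geometric_hahn_banach_point_point (E := V) hae
    have hS : D ∩ {v | l e ≤ l v} ∈ S := by
      refine ⟨⟨e, he, (le_rfl : l e ≤ l e)⟩, hDc.inter (isClosed_le continuous_const l.continuous),
        inter_subset_left.trans hDC, ?_⟩
      intro p hp q hq s t hs ht hst
      refine ⟨hXc hp.1 hq.1 hs ht hst, fun h => ?_⟩
      by_cases hpD : p ∈ D
      · by_cases hqD : q ∈ D
        · have h1 : l p < l e := not_le.1 fun h' => hp.2 ⟨hpD, h'⟩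
          have h2 : l q < l e := not_le.1 fun h' => hq.2 ⟨hqD, h'⟩
          have h3 : l e ≤ l (s • p + t • q) := h.2
          simp only [map_add, map_smul, smul_eq_mul] at h3
          have : s * l p + t * l q < l e := by
            have := Convex.combo_le_max (l p) (l q) hs ht hst
            simp only [smul_eq_mul] at this
            exact this.trans_lt (max_lt h1 h2)
          linarith
        · rcases eq_or_lt_of_le ht with rfl | ht'
          · have hs1 : s = 1 := by linarith
            subst hs1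
            simp only [one_smul, zero_smul, add_zero] at h
            exact hp.2 h
          · have := stepA q ⟨hq.1, hqD⟩ p hp.1 s hs (by linarith)
            have ht'' : 1 - s = t := by linarith
            rw [ht''] at this
            exact this.2 h.1
      · rcases eq_or_lt_of_le hs with rfl | hs'
        · have ht1 : t = 1 := by linarith
          subst ht1
          simp only [one_smul, zero_smul, zero_add] at h
          exact hq.2 h
        · have := stepA p ⟨hp.1, hpD⟩ q hq.1 t ht (by linarith)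
          have hs'' : 1 - t = s := by linarith
          rw [hs'', add_comm] at this
          exact this.2 h.1
    have := hD.le_of_le hS inter_subset_left ha
    exact absurd this.2 (not_le.2 hl)
  refine ⟨e, hDC he, ?_⟩
  rw [hXc.mem_extremePoints_iff_convex_sdiff]
  exact ⟨hDX he, hsingle ▸ hDconv⟩

/-- An open convex set containing the extreme points of a compact convex set contains it. -/
theorem subset_of_extremePoints_subset {X W : Set V} (hX : IsCompact X) (hXc : Convex ℝ X)
    (hW : IsOpen W) (hWc : Convex ℝ W) (h : X.extremePoints ℝ ⊆ W) : X ⊆ W := by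
  by_contra hne
  obtain ⟨x, hx, hxW⟩ := not_subset.1 hne
  obtain ⟨e, he, he'⟩ := exists_extreme_of_convex_diff (C := X \ W) hX hXc
    (hX.isClosed.sdiff hW) sdiff_subset ⟨x, hx, hxW⟩ (by
      rw [Set.sdiff_sdiff_right_self]
      exact hXc.inter hWc)
  exact he.2 (h he')

omit [LocallyConvexSpace ℝ V] [T2Space V] in
theorem isCompact_convexJoin {s t : Set V} (hs : IsCompact s) (ht : IsCompact t) :
    IsCompact (convexJoin ℝ s t) := by
  have : convexJoin ℝ s t =
      (fun p : ℝ × V × V => (1 - p.1) • p.2.1 + p.1 • p.2.2) '' (Icc (0 : ℝ) 1 ×ˢ s ×ˢ t) := by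
    ext x
    rw [mem_convexJoin]
    constructor
    · rintro ⟨a, ha, b, hb, hx⟩
      rw [segment_eq_image] at hx
      obtain ⟨θ, hθ, rfl⟩ := hx
      exact ⟨(θ, a, b), ⟨hθ, ha, hb⟩, rfl⟩
    · rintro ⟨⟨θ, a, b⟩, ⟨hθ, ha, hb⟩, rfl⟩
      refine ⟨a, ha, b, hb, ?_⟩
      rw [segment_eq_image]
      exact ⟨θ, hθ, rfl⟩
  rw [this]
  exact (isCompact_Icc.prod (hs.prod ht)).image (by fun_prop)

/-- A compact subset of `X` missing the extreme point `x` lies in a compact convex subset of `X`
missing `x`. -/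
theorem exists_compact_convex_not_mem {X A : Set V} (hX : IsCompact X) (hXc : Convex ℝ X)
    {x : V} (hx : x ∈ X.extremePoints ℝ) (hA : IsCompact A) (hAX : A ⊆ X) (hxA : x ∉ A) :
    ∃ K, IsCompact K ∧ Convex ℝ K ∧ K ⊆ X ∧ x ∉ K ∧ A ⊆ K := by
  have hconv : Convex ℝ (X \ {x}) := ((hXc.mem_extremePoints_iff_convex_sdiff).1 hx).2
  refine hA.induction_on
    (p := fun B => ∃ K, IsCompact K ∧ Convex ℝ K ∧ K ⊆ X ∧ x ∉ K ∧ B ⊆ K) ?_ ?_ ?_ ?_
  · exact ⟨∅, isCompact_empty, convex_empty, empty_subset _, notMem_empty _, Subset.rfl⟩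
  · rintro s t hst ⟨K, h1, h2, h3, h4, h5⟩
    exact ⟨K, h1, h2, h3, h4, hst.trans h5⟩
  · rintro s t ⟨K, h1, h2, h3, h4, h5⟩ ⟨L, k1, k2, k3, k4, k5⟩
    rcases K.eq_empty_or_nonempty with rfl | hK
    · exact ⟨L, k1, k2, k3, k4, union_subset (h5.trans (empty_subset _)) k5⟩
    rcases L.eq_empty_or_nonempty with rfl | hL
    · exact ⟨K, h1, h2, h3, h4, union_subset h5 (k5.trans (empty_subset _))⟩
    have hsub : convexJoin ℝ K L ⊆ X \ {x} :=
      convexJoin_subset (fun y hy => ⟨h3 hy, fun h => h4 (h ▸ hy)⟩)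
        (fun y hy => ⟨k3 hy, fun h => k4 (h ▸ hy)⟩) hconv
    exact ⟨convexJoin ℝ K L, isCompact_convexJoin h1 k1, h2.convexJoin k2,
      hsub.trans sdiff_subset, fun h => (hsub h).2 rfl,
      union_subset (h5.trans (subset_convexJoin_left hL)) (k5.trans (subset_convexJoin_right hK))⟩
  · intro a ha
    have hax : a ≠ x := fun h => hxA (h ▸ ha)
    obtain ⟨l, hl⟩ := geometric_hahn_banach_point_point (E := V) hax
    refine ⟨A ∩ {v | l v < (l a + l x) / 2}, ?_, X ∩ {v | l v ≤ (l a + l x) / 2}, ?_, ?_,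
      inter_subset_left, ?_, ?_⟩
    · refine inter_mem_nhdsWithin _ ((isOpen_lt l.continuous continuous_const).mem_nhds ?_)
      simp only [mem_ofPred_eq]
      linarith
    · exact hX.inter_right (isClosed_le l.continuous continuous_const)
    · exact hXc.inter (convex_halfSpace_le l.toLinearMap.isLinear _)
    · intro h
      have := h.2
      simp only [mem_ofPred_eq] at this
      linarith
    · intro v hv
      exact ⟨hAX hv.1, (le_of_lt hv.2 : l v ≤ (l a + l x) / 2)⟩

/-- A continuous affine function which is positive on `X`, larger than one on `X` outside a given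
open neighbourhood of the extreme point `x`, and small at `x`. -/
theorem exists_affine_small {X N : Set V} (hX : IsCompact X) (hXc : Convex ℝ X)
    {x : V} (hx : x ∈ X.extremePoints ℝ) (hN : IsOpen N) (hxN : x ∈ N) {η : ℝ} (hη : 0 < η) :
    ∃ (l : V →L[ℝ] ℝ) (c : ℝ), (∀ v ∈ X, 0 < c - l v) ∧ (∀ v ∈ X, v ∉ N → 1 < c - l v) ∧
      c - l x < η := by
  have hxX : x ∈ X := extremePoints_subset hx
  obtain ⟨K, hK, hKc, hKX, hxK, hAK⟩ := exists_compact_convex_not_mem (A := X \ N) hX hXc hx
    (hX.diff hN) sdiff_subset (fun h => h.2 hxN)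
  rcases K.eq_empty_or_nonempty with rfl | hKne
  · refine ⟨0, η / 2, fun v _ => by simpa using hη, fun v hv hvN => (hAK ⟨hv, hvN⟩).elim, ?_⟩
    simpa using hη
  let C : Set (V × ℝ) := convexJoin ℝ (X ×ˢ {0}) (K ×ˢ {1})
  have hC : IsCompact C :=
    isCompact_convexJoin (hX.prod isCompact_singleton) (hK.prod isCompact_singleton)
  have hCc : Convex ℝ C :=
    (hXc.prod (convex_singleton _)).convexJoin (hKc.prod (convex_singleton _))
  have hnot : ((x, η) : V × ℝ) ∉ C := by
    intro h
    obtain ⟨⟨a, a'⟩, ⟨ha, ha'⟩, ⟨b, b'⟩, ⟨hb, hb'⟩, s, t, hs, ht, hst, heq⟩ := mem_convexJoin.1 h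
    simp only [mem_singleton_iff] at ha' hb'
    subst ha' hb'
    simp only [Prod.smul_mk, Prod.mk_add_mk, smul_eq_mul, mul_zero, mul_one, zero_add,
      Prod.mk.injEq] at heq
    obtain ⟨h1, h2⟩ := heq
    subst h2
    rcases eq_or_lt_of_le hs with rfl | hs'
    · have : t = 1 := by linarith
      subst this
      simp only [zero_smul, one_smul, zero_add] at h1
      exact hxK (h1 ▸ hb)
    · have := (mem_extremePoints.1 hx).2 a ha b (hKX hb) ⟨s, t, hs', hη, hst, h1⟩
      exact hxK (this.2 ▸ hb)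
  obtain ⟨Φ, u, hΦ1, hΦ2⟩ := geometric_hahn_banach_closed_point hCc hC.isClosed hnot
  set β := Φ (0, 1) with hβ
  have hdec : ∀ (v : V) (t : ℝ), Φ (v, t) = Φ (v, 0) + t * β := by
    intro v t
    have : ((v, t) : V × ℝ) = (v, 0) + t • ((0 : V), (1 : ℝ)) := by simp
    rw [this, map_add, map_smul, smul_eq_mul]
  have h0 : ∀ v ∈ X, Φ (v, 0) < u := fun v hv =>
    hΦ1 _ (subset_convexJoin_left (hKne.prod (singleton_nonempty _)) ⟨hv, rfl⟩)
  have h1 : ∀ v ∈ K, Φ (v, 0) + β < u := fun v hv => by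
    have := hΦ1 (v, 1) (subset_convexJoin_right
      (Set.Nonempty.prod ⟨x, hxX⟩ (singleton_nonempty _)) ⟨hv, rfl⟩)
    rwa [hdec, one_mul] at this
  rw [hdec] at hΦ2
  have hβpos : 0 < β := by
    have := h0 x hxX
    by_contra hb
    have : η * β ≤ 0 := mul_nonpos_of_nonneg_of_nonpos hη.le (not_lt.1 hb)
    linarith
  refine ⟨β⁻¹ • (Φ.comp (ContinuousLinearMap.inl ℝ V ℝ)), β⁻¹ * u, fun v hv => ?_,
    fun v hv hvN => ?_, ?_⟩
  · simp only [smul_apply, ContinuousLinearMap.comp_apply,
      ContinuousLinearMap.inl_apply, smul_eq_mul]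
    rw [← mul_sub]
    exact mul_pos (inv_pos.2 hβpos) (sub_pos.2 (h0 v hv))
  · simp only [smul_apply, ContinuousLinearMap.comp_apply,
      ContinuousLinearMap.inl_apply, smul_eq_mul]
    rw [← mul_sub, lt_inv_mul_iff₀ hβpos]
    have := h1 v (hAK ⟨hv, hvN⟩)
    linarith
  · simp only [smul_apply, ContinuousLinearMap.comp_apply,
      ContinuousLinearMap.inl_apply, smul_eq_mul]
    rw [← mul_sub, inv_mul_lt_iff₀ hβpos]
    linarith

end Pool.Agent.Lib.MP_c64b61_an
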