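import Pool.Agent.Lib.MP_c64b61_an.Extreme

/-!
A selection theorem for open convex sets, from a dual decomposition property.
-/

open Set Filter Topology RCLike

namespace Pool.Agent.Lib.MP_c64b61_an

universe a b

/-- The dual decomposition property. -/
def PropH (𝕜 : Type*) [RCLike 𝕜] {W : Type*} [AddCommGroup W] [Module 𝕜 W] [TopologicalSpace W]
    (X : Set W) (S : Set 𝕜) : Prop :=
  ∀ (ι : Type a) (κ : Type b) [Fintype ι] [Fintype κ] (t : ι → ℝ) (x : ι → W) (β : ι → κ → 𝕜)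
    (l : ι → W →L[𝕜] 𝕜) (s : ι → ℝ), (∀ i, 0 ≤ t i) → (∀ i, x i ∈ X) →
    (∀ k, ∑ i, β i k • (t i : 𝕜) • x i = 0) →
    (∀ ξ ∈ X, ∃ z : κ → 𝕜, ∀ α ∈ S, ∀ i, re (α * (l i ξ + ∑ k, β i k * z k)) ≤ s i) →
    ∑ i, t i * re (l i (x i)) ≤ ∑ i, t i * s i

variable {𝕜 : Type*} [RCLike 𝕜] {W : Type*} [AddCommGroup W] [Module 𝕜 W] [Module ℝ W]
  [IsScalarTower ℝ 𝕜 W] [TopologicalSpace W] [IsTopologicalAddGroup W] [ContinuousSMul 𝕜 W]
  [LocallyConvexSpace ℝ W] [T2Space W]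

theorem finite_constraints {X : Set W} {S : Set 𝕜} (hX : IsCompact X) (hXc : Convex ℝ X)
    (hH : PropH.{a, b} 𝕜 X S) {ι : Type a} {κ : Type b} [Fintype ι] [Fintype κ]
    (β : ι → κ → 𝕜) (l : ι → W →L[𝕜] 𝕜) (s s' : ι → ℝ) (hs : ∀ i, s i < s' i)
    (h : ∀ ξ ∈ X, ∃ z : κ → 𝕜, ∀ α ∈ S, ∀ i, re (α * (l i ξ + ∑ k, β i k * z k)) ≤ s i) :
    ∃ a : κ → W →L[𝕜] 𝕜, ∀ x ∈ X, ∀ i, re (l i x + ∑ k, β i k * a k x) < s' i := by
  classical
  have := IsScalarTower.continuousSMul (M := ℝ) (α := W) 𝕜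
  rcases X.eq_empty_or_nonempty with rfl | hXne
  · exact ⟨0, fun x hx => hx.elim⟩
  let C : Set (W × ℝ) := convexJoin ℝ {0} (X ×ˢ {1})
  have hC : IsCompact C := isCompact_convexJoin isCompact_singleton (hX.prod isCompact_singleton)
  have hCc : Convex ℝ C := (convex_singleton _).convexJoin (hXc.prod (convex_singleton _))
  have hCmem : ∀ p ∈ C, ∃ t : ℝ, 0 ≤ t ∧ ∃ x ∈ X, p = (t • x, t) := by
    intro p hp
    obtain ⟨u, hu, ⟨v, v'⟩, ⟨hv, hv'⟩, s, t, -, ht, -, heq⟩ := mem_convexJoin.1 hp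
    simp only [mem_singleton_iff] at hu hv'
    subst hu hv'
    exact ⟨t, ht, v, hv, by simpa using heq.symm⟩
  let A : Set (ι → W × ℝ) := Set.pi univ (fun _ => C) ∩ {p | ∑ i, (p i).2 = 1}
  have hA : IsCompact A :=
    (isCompact_univ_pi fun _ => hC).inter_right (isClosed_eq (by fun_prop) continuous_const)
  have hAc : Convex ℝ A := by
    refine (convex_pi fun _ _ => hCc).inter ?_
    intro p hp q hq u v hu hv huv
    simp only [mem_ofPred_eq, Pi.add_apply, Pi.smul_apply, Prod.snd_add, Prod.smul_snd,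
      smul_eq_mul] at hp hq ⊢
    rw [Finset.sum_add_distrib, ← Finset.mul_sum, ← Finset.mul_sum, hp, hq]
    linarith
  let L : (ι → W × ℝ) → (κ → W) × ℝ := fun p =>
    (fun k => ∑ i, β i k • (p i).1, ∑ i, (s' i * (p i).2 - re (l i (p i).1)))
  have hLc : Continuous L := by
    refine Continuous.prodMk (continuous_pi fun k => by fun_prop) ?_
    refine continuous_finsetSum _ fun i _ => Continuous.sub (by fun_prop) ?_
    exact RCLike.continuous_re.comp (by fun_prop)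
  have hre : ∀ i (c : ℝ) (w : W), re (l i (c • w)) = c * re (l i w) := by
    intro i c w
    rw [← algebraMap_smul 𝕜 c w, map_smul, smul_eq_mul]
    simp
  have hLl : IsLinearMap ℝ L := by
    constructor
    · intro p q
      refine Prod.ext (funext fun k => ?_) ?_
      · simp [L, Finset.sum_add_distrib]
      · simp only [L, Pi.add_apply, Prod.snd_add, Prod.fst_add, map_add,
          ← Finset.sum_add_distrib]
        exact Finset.sum_congr rfl fun i _ => by ring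
    · intro c p
      refine Prod.ext (funext fun k => ?_) ?_
      · simp only [L, Pi.smul_apply, Prod.smul_fst, Finset.smul_sum]
        exact Finset.sum_congr rfl fun i _ => smul_comm _ _ _
      · simp only [L, Pi.smul_apply, Prod.smul_fst, Prod.smul_snd, smul_eq_mul, Finset.mul_sum,
          hre]
        exact Finset.sum_congr rfl fun i _ => by ring
  have hK : IsCompact (L '' A) := hA.image hLc
  have hKc : Convex ℝ (L '' A) := hAc.is_linear_image hLl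
  let Z : Set ((κ → W) × ℝ) := {0} ×ˢ Iic 0
  have hZ : IsClosed Z := isClosed_singleton.prod isClosed_Iic
  have hZc : Convex ℝ Z := (convex_singleton _).prod (convex_Iic _)
  have hdisj : Disjoint (L '' A) Z := by
    rw [Set.disjoint_left]
    rintro _ ⟨p, ⟨hp1, hp2⟩, rfl⟩ ⟨hz1, hz2⟩
    choose t ht x hx hp using fun i => hCmem (p i) (hp1 i (mem_univ i))
    have hp2' : ∑ i, t i = 1 := by
      have : ∑ i, (p i).2 = 1 := hp2
      simpa only [hp] using this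
    have hz1' : ∀ k, ∑ i, β i k • (t i : 𝕜) • x i = 0 := by
      intro k
      have := congrFun (mem_singleton_iff.1 hz1) k
      simp only [L, hp, Pi.zero_apply] at this
      simpa only [← RCLike.real_smul_eq_coe_smul] using this
    have h1 := hH ι κ t x β l s ht hx hz1' h
    have h2 : ∑ i, (s' i * t i - t i * re (l i (x i))) ≤ 0 := by
      have : (L p).2 ≤ 0 := hz2
      simpa only [L, hp, hre] using this
    rw [Finset.sum_sub_distrib] at h2
    have h3 : 0 < ∑ i, t i * (s' i - s i) := by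
      have : ∃ i, 0 < t i := by
        by_contra hcon
        push Not at hcon
        have : ∑ i, t i ≤ 0 := Finset.sum_nonpos fun i _ => hcon i
        linarith
      obtain ⟨i, hi⟩ := this
      exact Finset.sum_pos' (fun j _ => mul_nonneg (ht j) (sub_pos.2 (hs j)).le)
        ⟨i, Finset.mem_univ i, mul_pos hi (sub_pos.2 (hs i))⟩
    have h4 : ∑ i, t i * (s' i - s i) = ∑ i, s' i * t i - ∑ i, t i * s i := by
      rw [← Finset.sum_sub_distrib]
      exact Finset.sum_congr rfl fun i _ => by ring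
    linarith
  obtain ⟨Φ, u, v, hΦ1, huv, hΦ2⟩ := geometric_hahn_banach_compact_closed hKc hK hZc hZ hdisj
  set γ := Φ (0, 1) with hγ
  have hdec : ∀ (w : κ → W) (c : ℝ), Φ (w, c) = Φ (w, 0) + c * γ := by
    intro w c
    have : ((w, c) : (κ → W) × ℝ) = (w, 0) + c • ((0 : κ → W), (1 : ℝ)) := by simp
    rw [this, map_add, map_smul, smul_eq_mul]
  have hv0 : v < 0 := by
    have := hΦ2 (0, 0) ⟨rfl, (le_rfl : (0 : ℝ) ≤ 0)⟩
    rwa [show ((0, 0) : (κ → W) × ℝ) = 0 from rfl, map_zero] at this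
  have hγ0 : γ ≤ 0 := by
    by_contra hpos
    push Not at hpos
    have hneg : v / γ ≤ 0 := div_nonpos_of_nonpos_of_nonneg hv0.le hpos.le
    have := hΦ2 (0, v / γ) ⟨rfl, hneg⟩
    rw [hdec, show ((0, 0) : (κ → W) × ℝ) = 0 from rfl, map_zero, zero_add,
      div_mul_cancel₀ _ hpos.ne'] at this
    exact lt_irrefl _ this
  obtain ⟨Bd, hBd⟩ := (hK.image continuous_snd).isBounded.exists_norm_le
  have hBd' : ∀ p ∈ L '' A, |p.2| ≤ |Bd| := fun p hp =>
    (hBd p.2 ⟨p, hp, rfl⟩).trans (le_abs_self _)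
  set η := -u / (|Bd| + 1) with hη
  have hηpos : 0 < η := div_pos (by linarith) (by positivity)
  have hγ' : 0 < η - γ := by linarith
  have hkey : ∀ p ∈ L '' A, Φ (p.1, 0) < (η - γ) * p.2 := by
    intro p hp
    have h1 := hΦ1 p hp
    rw [show p = (p.1, p.2) from rfl, hdec] at h1
    have h2 := hBd' p hp
    have h3 : η * (|Bd| + 1) = -u := by rw [hη]; field_simp
    have h4 := neg_abs_le p.2
    nlinarith
  let A0 : StrongDual ℝ (κ → W) := Φ.comp (ContinuousLinearMap.inl ℝ (κ → W) ℝ)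
  let A1 : StrongDual 𝕜 (κ → W) := A0.extendRCLike
  refine ⟨fun k => (((η - γ)⁻¹ : ℝ) : 𝕜) •
    A1.comp (ContinuousLinearMap.single 𝕜 (fun _ : κ => W) k), fun x hx i => ?_⟩
  have hmemA : (Pi.single i (x, (1 : ℝ)) : ι → W × ℝ) ∈ A := by
    refine ⟨fun j _ => ?_, ?_⟩
    · by_cases hj : j = i
      · subst hj
        rw [Pi.single_eq_same]
        exact subset_convexJoin_right (singleton_nonempty _) ⟨hx, rfl⟩
      · rw [Pi.single_eq_of_ne hj]
        exact subset_convexJoin_left (hXne.prod (singleton_nonempty _)) rfl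
    · show ∑ j, ((Pi.single i (x, (1 : ℝ)) : ι → W × ℝ) j).2 = 1
      rw [Finset.sum_eq_single i (fun j _ hj => by rw [Pi.single_eq_of_ne hj]; rfl) (by simp)]
      simp
  have hL : L (Pi.single i (x, (1 : ℝ))) = (fun k => β i k • x, s' i - re (l i x)) := by
    refine Prod.ext (funext fun k => ?_) ?_
    · simp only [L]
      rw [Finset.sum_eq_single i (fun j _ hj => by rw [Pi.single_eq_of_ne hj]; simp) (by simp)]
      simp
    · simp only [L]
      rw [Finset.sum_eq_single i (fun j _ hj => by rw [Pi.single_eq_of_ne hj]; simp) (by simp)]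
      simp
  have h1 := hkey _ ⟨_, hmemA, rfl⟩
  rw [hL] at h1
  have h2 : ∑ k, β i k * ((((η - γ)⁻¹ : ℝ) : 𝕜) •
      A1.comp (ContinuousLinearMap.single 𝕜 (fun _ : κ => W) k)) x =
      (((η - γ)⁻¹ : ℝ) : 𝕜) * A1 (fun k => β i k • x) := by
    have : (fun k => β i k • x) = ∑ k, β i k • (Pi.single k x : κ → W) := by
      funext k
      simp [Finset.sum_apply, Pi.single_apply]
    rw [this, map_sum, Finset.mul_sum]
    refine Finset.sum_congr rfl fun k _ => ?_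
    simp only [smul_apply, ContinuousLinearMap.comp_apply, ContinuousLinearMap.single_apply,
      map_smul, smul_eq_mul]
    ring
  rw [h2, map_add, re_ofReal_mul]
  have h3 : re (A1 (fun k => β i k • x)) = Φ (fun k => β i k • x, 0) := by
    simp [A1, A0]
  rw [h3]
  have h4 : (η - γ)⁻¹ * Φ (fun k => β i k • x, 0) < s' i - re (l i x) := by
    rw [inv_mul_lt_iff₀ hγ']
    exact h1
  linarith

theorem norm_le_four {z : 𝕜} (h1 : re (1 * z) < 2) (h2 : re (-1 * z) < 2) (h3 : re (I * z) < 2)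
    (h4 : re (-I * z) < 2) : ‖z‖ ≤ 4 := by
  rw [one_mul] at h1
  rw [neg_mul, one_mul, map_neg] at h2
  rw [I_mul_re] at h3
  rw [neg_mul, map_neg, I_mul_re] at h4
  have hI : ‖(I : 𝕜)‖ ≤ 1 := by
    rw [norm_I]
    split_ifs <;> norm_num
  calc ‖z‖ = ‖(re z : 𝕜) + (im z : 𝕜) * I‖ := by rw [re_add_im]
    _ ≤ ‖(re z : 𝕜)‖ + ‖(im z : 𝕜)‖ * ‖(I : 𝕜)‖ := by
      rw [← norm_mul]; exact norm_add_le _ _
    _ ≤ |re z| + |im z| * 1 := by
      rw [norm_ofReal, norm_ofReal]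
      exact add_le_add le_rfl (mul_le_mul_of_nonneg_left hI (abs_nonneg _))
    _ ≤ 4 := by
      have : |re z| ≤ 2 := abs_le.2 ⟨by linarith, by linarith⟩
      have : |im z| ≤ 2 := abs_le.2 ⟨by linarith, by linarith⟩
      linarith

end Pool.Agent.Lib.MP_c64b61_an

namespace Pool.Agent.Lib.MP_c64b61_an

universe u v

theorem selection {𝕜 : Type v} [RCLike 𝕜] {W : Type u} [AddCommGroup W] [Module 𝕜 W] [Module ℝ W]
    [IsScalarTower ℝ 𝕜 W] [TopologicalSpace W] [IsTopologicalAddGroup W] [ContinuousSMul 𝕜 W]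
    [LocallyConvexSpace ℝ W] [T2Space W]
    {F : Type*} [AddCommGroup F] [Module 𝕜 F] [Module ℝ F]
    [IsScalarTower ℝ 𝕜 F] [TopologicalSpace F] [IsTopologicalAddGroup F] [ContinuousSMul 𝕜 F]
    {X : Set W} {S : Set 𝕜} (hX : IsCompact X) (hXc : Convex ℝ X) (hS : IsCompact S)
    (hS1 : ∀ α ∈ S, ‖α‖ ≤ 1) (hH : PropH.{max u v, u} 𝕜 X S)
    {Ω : Set (W × F)} (hΩ : IsOpen Ω) (hΩc : Convex ℝ Ω)
    (hsec : ∀ x ∈ X, ∃ z, ∀ α ∈ S, α • (x, z) ∈ Ω) :
    ∃ g : W →L[𝕜] F, ∀ x ∈ X, (x, g x) ∈ Ω := by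
  classical
  have hloc : ∀ x : W, ∃ (y : F) (N : Set W), x ∈ X → N ∈ 𝓝 x ∧ IsClosed N ∧
      ∀ x' ∈ N, ∀ α ∈ S, α • (x', y) ∈ Ω := by
    intro x
    by_cases hx : x ∈ X
    swap
    · exact ⟨0, ∅, fun h => (hx h).elim⟩
    obtain ⟨y, hy⟩ := hsec x hx
    have hev : ∀ᶠ x' in 𝓝 x, ∀ α ∈ S, α • (x', y) ∈ Ω := by
      refine hS.eventually_forall_of_forall_eventually (P := fun x' α => α • (x', y) ∈ Ω)
        fun α hα => ?_
      have hc : Continuous fun p : W × 𝕜 => p.2 • (p.1, y) := by fun_prop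
      exact hc.continuousAt.eventually_mem (hΩ.mem_nhds (hy α hα))
    obtain ⟨N, hN1, hN2, hN3⟩ := exists_mem_nhds_isClosed_subset hev
    exact ⟨y, N, fun _ => ⟨hN1, hN2, fun x' hx' => hN3 hx'⟩⟩
  choose y N hN using hloc
  obtain ⟨T, hT1, hT2⟩ := hX.elim_nhds_subcover N fun x hx => (hN x hx).1
  let Y : (T → 𝕜) →L[𝕜] F :=
    ∑ k : T, (ContinuousLinearMap.proj (R := 𝕜) (φ := fun _ : T => 𝕜) k).smulRight (y k)
  have hY : ∀ z, Y z = ∑ k : T, z k • y k := by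
    intro z
    simp [Y]
  have hYs : ∀ k : T, Y (Pi.single k 1) = y k := by
    intro k
    rw [hY, Finset.sum_eq_single k (fun j _ hj => by rw [Pi.single_eq_of_ne hj, zero_smul])
      (by simp)]
    simp
  let P : (W × (T → 𝕜)) →L[𝕜] W × F := (ContinuousLinearMap.id 𝕜 W).prodMap Y
  let Ω' : Set (W × (T → 𝕜)) := P ⁻¹' Ω
  have hΩ' : IsOpen Ω' := hΩ.preimage P.continuous
  have hΩ'c : Convex ℝ Ω' := hΩc.linear_preimage (P.toLinearMap.restrictScalars ℝ)
  let Γ : Set (W × (T → 𝕜)) :=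
    ⋃ k : T, (fun p : 𝕜 × W => p.1 • (p.2, (Pi.single k 1 : T → 𝕜))) '' (S ×ˢ (X ∩ N k))
  have hΓ : IsCompact Γ := isCompact_iUnion fun k =>
    (hS.prod (hX.inter_right (hN k (hT1 k k.2)).2.1)).image (by fun_prop)
  have hΓΩ : Γ ⊆ Ω' := by
    intro p hp
    obtain ⟨k, ⟨α, x⟩, ⟨hα, hx⟩, rfl⟩ := mem_iUnion.1 hp
    show P _ ∈ Ω
    rw [map_smul]
    have : P (x, Pi.single k 1) = (x, y k) := by simp [P, hYs]
    rw [this]
    exact (hN k (hT1 k k.2)).2.2 x hx.2 α hα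
  let D : Set (W × (T → 𝕜)) := (X ×ˢ Metric.closedBall 0 4) \ Ω'
  have hD : IsCompact D := (hX.prod (isCompact_closedBall _ _)).diff hΩ'
  have hsep : ∀ p : W × (T → 𝕜), ∃ (Λ : (W × (T → 𝕜)) →L[𝕜] 𝕜) (s s' : ℝ), s < s' ∧
      (∀ w ∈ Γ, re (Λ w) ≤ s) ∧ (p ∈ D → s' < re (Λ p)) := by
    intro p
    by_cases hp : p ∈ D
    swap
    · exact ⟨0, 0, 1, zero_lt_one, fun w _ => by simp, fun h => (hp h).elim⟩
    obtain ⟨Λ, hΛ⟩ := RCLike.geometric_hahn_banach_open_point (𝕜 := 𝕜) hΩ'c hΩ' hp.2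
    rcases Γ.eq_empty_or_nonempty with h | h
    · exact ⟨Λ, re (Λ p) - 2, re (Λ p) - 1, by linarith, fun w hw => by simp [h] at hw,
        fun _ => by linarith⟩
    · obtain ⟨m, hm, hm'⟩ := hΓ.exists_isMaxOn h
        (RCLike.continuous_re.comp Λ.continuous).continuousOn
      have := hΛ m (hΓΩ hm)
      exact ⟨Λ, re (Λ m), (re (Λ m) + re (Λ p)) / 2, by linarith, fun w hw => hm' hw,
        fun _ => by linarith⟩
  choose Λ s s' hss hΛΓ hΛp using hsep
  obtain ⟨U, hU1, hU2⟩ := hD.elim_nhds_subcover (fun p => {w | s' p < re (Λ p w)}) fun p hp =>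
    (isOpen_lt continuous_const (RCLike.continuous_re.comp (Λ p).continuous)).mem_nhds (hΛp p hp)
  have hΛdec : ∀ (L : (W × (T → 𝕜)) →L[𝕜] 𝕜) (x : W) (z : T → 𝕜),
      L (x, z) = L (x, 0) + ∑ k : T, L (0, Pi.single k 1) * z k := by
    intro L x z
    have : ((x, z) : W × (T → 𝕜)) = (x, 0) + ∑ k : T, z k • ((0 : W), (Pi.single k 1 : T → 𝕜)) := by
      refine Prod.ext ?_ ?_
      · simp [Prod.fst_sum]
      · funext j
        simp [Prod.snd_sum, Finset.sum_apply, Pi.single_apply]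
    rw [this, map_add, map_sum]
    simp only [map_smul, smul_eq_mul, mul_comm]
  let un : Fin 4 → 𝕜 := ![1, -1, I, -I]
  have hun : ∀ j, ‖un j‖ ≤ 1 := by
    have hI : ‖(I : 𝕜)‖ ≤ 1 := by
      rw [norm_I]
      split_ifs <;> norm_num
    intro j
    fin_cases j <;> simp [un, hI]
  let Λ' : U ⊕ (T × Fin 4) → (W × (T → 𝕜)) →L[𝕜] 𝕜 := fun i =>
    match i with
    | Sum.inl p => Λ p
    | Sum.inr kj => un kj.2 • ((ContinuousLinearMap.proj (R := 𝕜) (φ := fun _ : T => 𝕜) kj.1).comp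
        (ContinuousLinearMap.snd 𝕜 W (T → 𝕜)))
  let σ : U ⊕ (T × Fin 4) → ℝ := Sum.elim (fun p => s p) fun _ => 1
  let σ' : U ⊕ (T × Fin 4) → ℝ := Sum.elim (fun p => s' p) fun _ => 2
  have hΓ' : ∀ i, ∀ w ∈ Γ, re (Λ' i w) ≤ σ i := by
    rintro (p | ⟨k, j⟩) w hw
    · exact hΛΓ p w hw
    · obtain ⟨k', ⟨α, x⟩, ⟨hα, hx⟩, rfl⟩ := mem_iUnion.1 hw
      refine (re_le_norm _).trans ?_
      simp only [Λ', σ, smul_apply, ContinuousLinearMap.comp_apply, ContinuousLinearMap.coe_snd',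
        ContinuousLinearMap.proj_apply, Prod.smul_snd, Pi.smul_apply, smul_eq_mul, norm_mul,
        Sum.elim_inr]
      have h1 : ‖(Pi.single k' (1 : 𝕜) : T → 𝕜) k‖ ≤ 1 := by
        rw [Pi.single_apply]
        split_ifs <;> simp
      exact mul_le_one₀ (hun j) (by positivity) (mul_le_one₀ (hS1 α hα) (norm_nonneg _) h1)
  obtain ⟨a, ha⟩ := finite_constraints hX hXc hH (ι := U ⊕ (T × Fin 4)) (κ := T)
    (fun i k => Λ' i (0, Pi.single k 1))
    (fun i => (Λ' i).comp (ContinuousLinearMap.inl 𝕜 W (T → 𝕜))) σ σ'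
    (by
      rintro (p | kj)
      · exact hss p
      · simp [σ, σ'])
    (by
      intro ξ hξ
      obtain ⟨k, hk, hξk⟩ := mem_iUnion₂.1 (hT2 hξ)
      refine ⟨Pi.single ⟨k, hk⟩ 1, fun α hα i => ?_⟩
      have := hΓ' i (α • (ξ, Pi.single ⟨k, hk⟩ 1))
        (mem_iUnion.2 ⟨⟨k, hk⟩, (α, ξ), ⟨hα, hξ, hξk⟩, rfl⟩)
      rw [map_smul, smul_eq_mul, hΛdec] at this
      exact this)
  refine ⟨Y.comp (ContinuousLinearMap.pi a), fun x hx => ?_⟩
  have ha' : ∀ i, re (Λ' i (x, fun k => a k x)) < σ' i := by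
    intro i
    rw [hΛdec]
    exact ha x hx i
  by_contra hnot
  have hmemD : (x, fun k => a k x) ∈ D := by
    refine ⟨⟨hx, ?_⟩, hnot⟩
    rw [mem_closedBall_zero_iff, pi_norm_le_iff_of_nonneg (by norm_num)]
    intro k
    exact norm_le_four (ha' (Sum.inr (k, 0))) (ha' (Sum.inr (k, 1))) (ha' (Sum.inr (k, 2)))
      (ha' (Sum.inr (k, 3)))
  obtain ⟨p, hp, hp'⟩ := mem_iUnion₂.1 (hU2 hmemD)
  exact lt_asymm (ha' (Sum.inl ⟨p, hp⟩)) hp'

end Pool.Agent.Lib.MP_c64b61_an
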