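import Pool.Agent.Lib.MP_c64b61_an.Extreme

/-!
A form of the Simons inequality and the Rainwater theorem for convex continuous functions.
-/

open Set Filter Topology

namespace Pool.Agent.Lib.MP_c64b61_an

theorem simons_core {T : Type*} [TopologicalSpace T] [CompactSpace T] [Nonempty T]
    (C : ℕ → Set C(T, ℝ)) (hcl : ∀ k, IsClosed (C k)) (hcv : ∀ k, Convex ℝ (C k))
    (hne : ∀ k, (C k).Nonempty) (hanti : ∀ k, C (k + 1) ⊆ C k) (M : ℝ)
    (hM : ∀ k, ∀ g ∈ C k, ‖g‖ ≤ M) {δ : ℝ} (hδ : 0 < δ) :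
    ∃ v ∈ C 0, ∀ b, (∀ y, v y ≤ v b) → ∀ k, ∃ r ∈ C k, v b - δ ≤ r b := by
  let σ : C(T, ℝ) → ℝ := fun h => ⨆ y, h y
  have hbdd : ∀ h : C(T, ℝ), BddAbove (range h) := fun h =>
    (isCompact_range h.continuous).bddAbove
  have hle : ∀ (h : C(T, ℝ)) (y : T), h y ≤ σ h := fun h y => le_ciSup (hbdd h) y
  have hchoice : ∀ (k : ℕ) (u : C(T, ℝ)), ∃ g ∈ C k, ∀ g' ∈ C k,
      σ (u + ((1 / 2 : ℝ) ^ k) • g) ≤ σ (u + ((1 / 2 : ℝ) ^ k) • g') + δ * (1 / 2) ^ k * (1 / 2) ^ (k + 1) := by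
    intro k u
    let A : Set ℝ := (fun g => σ (u + ((1 / 2 : ℝ) ^ k) • g)) '' C k
    have hA : A.Nonempty := (hne k).image _
    have hAb : BddBelow A := by
      refine ⟨-(‖u‖ + (1 / 2 : ℝ) ^ k * M), ?_⟩
      rintro _ ⟨g, hg, rfl⟩
      obtain ⟨y⟩ := ‹Nonempty T›
      refine le_trans ?_ (hle _ y)
      have h1 : ‖(u + ((1 / 2 : ℝ) ^ k) • g) y‖ ≤ ‖u + ((1 / 2 : ℝ) ^ k) • g‖ :=
        ContinuousMap.norm_coe_le_norm _ y
      have h2 : ‖u + ((1 / 2 : ℝ) ^ k) • g‖ ≤ ‖u‖ + (1 / 2 : ℝ) ^ k * M := by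
        refine (norm_add_le _ _).trans (add_le_add le_rfl ?_)
        rw [norm_smul, Real.norm_of_nonneg (by positivity)]
        exact mul_le_mul_of_nonneg_left (hM k g hg) (by positivity)
      have := neg_abs_le ((u + ((1 / 2 : ℝ) ^ k) • g) y)
      rw [Real.norm_eq_abs] at h1
      linarith
    have hpos : 0 < δ * (1 / 2 : ℝ) ^ k * (1 / 2) ^ (k + 1) := by positivity
    obtain ⟨_, ⟨g, hg, rfl⟩, hlt⟩ := exists_lt_of_csInf_lt hA (lt_add_of_pos_right (sInf A) hpos)
    refine ⟨g, hg, fun g' hg' => hlt.le.trans (add_le_add (csInf_le hAb ⟨g', hg', rfl⟩) le_rfl)⟩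
  choose G hGC hG using hchoice
  let v : ℕ → C(T, ℝ) := fun n => Nat.rec 0 (fun k u => u + ((1 / 2 : ℝ) ^ (k + 1)) • G k u) n
  let g : ℕ → C(T, ℝ) := fun k => G k (v k)
  have hv0 : v 0 = 0 := rfl
  have hvs : ∀ k, v (k + 1) = v k + ((1 / 2 : ℝ) ^ (k + 1)) • g k := fun k => rfl
  have hgC : ∀ k, g k ∈ C k := fun k => hGC k _
  have hcauchy : CauchySeq v := by
    refine cauchySeq_of_le_geometric (1 / 2) (M / 2) (by norm_num) fun n => ?_
    rw [dist_comm, dist_eq_norm, hvs, add_sub_cancel_left, norm_smul,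
      Real.norm_of_nonneg (by positivity), pow_succ]
    have := hM n _ (hgC n)
    have h2 : (0 : ℝ) ≤ (1 / 2) ^ n := by positivity
    nlinarith
  obtain ⟨w, hw⟩ := cauchySeq_tendsto_of_complete hcauchy
  let r : ℕ → C(T, ℝ) := fun k => ((2 : ℝ) ^ k) • (w - v k)
  have hback : ∀ k n, ∀ h ∈ C (k + n),
      ((2 : ℝ) ^ k) • (v (k + n) - v k) + ((1 / 2 : ℝ) ^ n) • h ∈ C k := by
    intro k n
    induction n with
    | zero => intro h hh; simpa using hh
    | succ n ih =>
      intro h hh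
      have hmid : (1 / 2 : ℝ) • g (k + n) + (1 / 2 : ℝ) • h ∈ C (k + n) :=
        hcv _ (hgC _) (hanti _ hh) (by norm_num) (by norm_num) (by norm_num)
      have := ih _ hmid
      convert this using 1
      have hk : (2 : ℝ) ^ k * (1 / 2) ^ (k + n + 1) = (1 / 2) ^ n * (1 / 2) := by
        rw [add_assoc, pow_add, ← mul_assoc, ← mul_pow]
        norm_num
        rw [pow_succ]
      rw [← add_assoc k n 1, hvs, add_sub_right_comm, smul_add, smul_smul, hk, pow_succ]
      module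
  have hrC : ∀ k, r k ∈ C k := by
    intro k
    have h1 : Tendsto (fun n => v (k + n)) atTop (𝓝 w) :=
      hw.comp (tendsto_atTop_mono (fun n => Nat.le_add_left n k) tendsto_id)
    have h2 : Tendsto (fun n => ((1 / 2 : ℝ) ^ n) • g (k + n)) atTop (𝓝 0) := by
      refine squeeze_zero_norm (a := fun n => (1 / 2 : ℝ) ^ n * M) (fun n => ?_) ?_
      · rw [norm_smul, Real.norm_of_nonneg (by positivity)]
        exact mul_le_mul_of_nonneg_left (hM _ _ (hgC _)) (by positivity)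
      · simpa using (tendsto_pow_atTop_nhds_zero_of_lt_one (r := (1 / 2 : ℝ)) (by norm_num)
          (by norm_num)).mul_const M
    have h3 := ((h1.sub_const (v k)).const_smul ((2 : ℝ) ^ k)).add h2
    rw [add_zero] at h3
    exact (hcl k).mem_of_tendsto h3 (Eventually.of_forall fun n => hback k n _ (hgC _))
  have hr0 : r 0 = w := by simp [r, hv0]
  refine ⟨w, hr0 ▸ hrC 0, fun b hb k => ⟨r k, hrC k, ?_⟩⟩
  have hσ : σ w ≤ w b := ciSup_le hb
  have hpow : ∀ j : ℕ, (2 : ℝ) ^ j * (1 / 2) ^ j = 1 := fun j => by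
    rw [← mul_pow]; norm_num
  have hstep : ∀ j, r j b - δ * (1 / 2) ^ (j + 1) ≤ r (j + 1) b := by
    intro j
    have h1 := hG j (v j) (r j) (hrC j)
    have h2 : v j + ((1 / 2 : ℝ) ^ j) • r j = w := by
      simp only [r, smul_smul]
      rw [mul_comm, hpow, one_smul, add_sub_cancel]
    rw [h2] at h1
    have h3 := (hle _ b).trans h1
    have h4 : r j b = 2 ^ j * (w b - v j b) := by simp [r]
    have h5 : r (j + 1) b = 2 ^ (j + 1) * (w b - (v j b + (1 / 2) ^ (j + 1) * g j b)) := by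
      simp [r, hvs]
    have h6 : v j b + (1 / 2) ^ j * g j b ≤ w b + δ * (1 / 2) ^ j * (1 / 2) ^ (j + 1) := by
      have : (v j + ((1 / 2 : ℝ) ^ j) • G j (v j)) b = v j b + (1 / 2) ^ j * g j b := by
        simp [g]
      rw [this] at h3
      linarith
    have h7 : g j b ≤ r j b + δ * (1 / 2) ^ (j + 1) := by
      have h8 := mul_le_mul_of_nonneg_left h6 (show (0 : ℝ) ≤ 2 ^ j by positivity)
      have e1 : (2 : ℝ) ^ j * (v j b + (1 / 2) ^ j * g j b) = 2 ^ j * v j b + g j b := by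
        rw [mul_add, ← mul_assoc, hpow, one_mul]
      have e2 : (2 : ℝ) ^ j * (w b + δ * (1 / 2) ^ j * (1 / 2) ^ (j + 1)) =
          2 ^ j * w b + δ * (1 / 2) ^ (j + 1) := by
        have : (2 : ℝ) ^ j * (δ * (1 / 2) ^ j * (1 / 2) ^ (j + 1)) =
            δ * (2 ^ j * (1 / 2) ^ j) * (1 / 2) ^ (j + 1) := by ring
        rw [mul_add, this, hpow, mul_one]
      rw [e1, e2] at h8
      rw [h4]
      linarith
    have e3 : r (j + 1) b = 2 * r j b - g j b := by
      rw [h5, h4]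
      have := hpow (j + 1)
      have e4 : (2 : ℝ) ^ (j + 1) * (w b - (v j b + (1 / 2) ^ (j + 1) * g j b)) =
          2 * (2 ^ j * (w b - v j b)) - (2 ^ (j + 1) * (1 / 2) ^ (j + 1)) * g j b := by ring
      rw [e4, this, one_mul]
    linarith
  have hall : ∀ j, w b - δ * (1 - (1 / 2) ^ j) ≤ r j b := by
    intro j
    induction j with
    | zero => simp [hr0]
    | succ j ih =>
      have := hstep j
      rw [pow_succ] at this ⊢
      linarith
  have h1 := hall k
  have h2 : 0 ≤ δ * (1 / 2 : ℝ) ^ k := by positivity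
  linarith

variable {V : Type*} [AddCommGroup V] [Module ℝ V] [TopologicalSpace V]
  [IsTopologicalAddGroup V] [ContinuousSMul ℝ V] [LocallyConvexSpace ℝ V] [T2Space V]

/-- Rainwater theorem for uniformly bounded continuous convex functions. -/
theorem rainwater {X : Set V} (hX : IsCompact X) (hXc : Convex ℝ X) (a : ℕ → V → ℝ)
    (hcont : ∀ k, ContinuousOn (a k) X) (hconv : ∀ k, ConvexOn ℝ X (a k)) (M : ℝ)
    (hM : ∀ k, ∀ x ∈ X, |a k x| ≤ M)
    (hlim : ∀ e ∈ X.extremePoints ℝ, Tendsto (fun k => a k e) atTop (𝓝 0))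
    {x₀ : V} (hx₀ : x₀ ∈ X) {ε : ℝ} (hε : 0 < ε) : ∃ k, a k x₀ < ε := by
  by_contra hcon
  push Not at hcon
  have : CompactSpace X := isCompact_iff_compactSpace.1 hX
  have : Nonempty X := ⟨⟨x₀, hx₀⟩⟩
  have hM0 : 0 ≤ M := (abs_nonneg _).trans (hM 0 x₀ hx₀)
  let C : ℕ → Set C(X, ℝ) := fun k => {g | ‖g‖ ≤ M ∧ ε ≤ g ⟨x₀, hx₀⟩ ∧
    (∀ (x y z : X) (s t : ℝ), 0 ≤ s → 0 ≤ t → s + t = 1 → (z : V) = s • (x : V) + t • (y : V) →
      g z ≤ s * g x + t * g y) ∧
    (∀ (x : X) (c : ℝ), (∀ n, k ≤ n → a n x ≤ c) → g x ≤ c)}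
  have hcl : ∀ k, IsClosed (C k) := by
    intro k
    simp only [C, ofPred_and, ofPred_forall]
    refine (isClosed_le continuous_norm continuous_const).inter
      ((isClosed_le continuous_const (by fun_prop)).inter (IsClosed.inter ?_ ?_))
    · refine isClosed_iInter fun x => isClosed_iInter fun y => isClosed_iInter fun z =>
        isClosed_iInter fun s => isClosed_iInter fun t => isClosed_iInter fun _ =>
        isClosed_iInter fun _ => isClosed_iInter fun _ => isClosed_iInter fun _ => ?_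
      exact isClosed_le (by fun_prop) (by fun_prop)
    · refine isClosed_iInter fun x => isClosed_iInter fun c => isClosed_iInter fun _ => ?_
      exact isClosed_le (by fun_prop) (by fun_prop)
  have hcv : ∀ k, Convex ℝ (C k) := by
    intro k g ⟨g1, g2, g3, g4⟩ h ⟨h1, h2, h3, h4⟩ p q hp hq hpq
    refine ⟨?_, ?_, ?_, ?_⟩
    · refine (norm_add_le _ _).trans ?_
      rw [norm_smul, norm_smul, Real.norm_of_nonneg hp, Real.norm_of_nonneg hq]
      have := mul_le_mul_of_nonneg_left g1 hp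
      have := mul_le_mul_of_nonneg_left h1 hq
      have : p * M + q * M = M := by rw [← add_mul, hpq, one_mul]
      linarith
    · simp only [ContinuousMap.add_apply, ContinuousMap.smul_apply, smul_eq_mul]
      have := mul_le_mul_of_nonneg_left g2 hp
      have := mul_le_mul_of_nonneg_left h2 hq
      have : p * ε + q * ε = ε := by rw [← add_mul, hpq, one_mul]
      linarith
    · intro x y z s t hs ht hst hz
      simp only [ContinuousMap.add_apply, ContinuousMap.smul_apply, smul_eq_mul]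
      have := mul_le_mul_of_nonneg_left (g3 x y z s t hs ht hst hz) hp
      have := mul_le_mul_of_nonneg_left (h3 x y z s t hs ht hst hz) hq
      nlinarith
    · intro x c hc
      simp only [ContinuousMap.add_apply, ContinuousMap.smul_apply, smul_eq_mul]
      have := mul_le_mul_of_nonneg_left (g4 x c hc) hp
      have := mul_le_mul_of_nonneg_left (h4 x c hc) hq
      have : p * c + q * c = c := by rw [← add_mul, hpq, one_mul]
      linarith
  have hne : ∀ k, (C k).Nonempty := by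
    intro k
    refine ⟨⟨X.domRestrict (a k), (hcont k).domRestrict⟩, ?_, hcon k, ?_, ?_⟩
    · exact (ContinuousMap.norm_le _ hM0).2 fun x => hM k x x.2
    · intro x y z s t hs ht hst hz
      have := (hconv k).2 x.2 y.2 hs ht hst
      rw [← hz] at this
      exact this
    · intro x c hc
      exact hc k le_rfl
  have hanti : ∀ k, C (k + 1) ⊆ C k := by
    rintro k g ⟨g1, g2, g3, g4⟩
    exact ⟨g1, g2, g3, fun x c hc => g4 x c fun n hn => hc n (Nat.le_of_succ_le hn)⟩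
  obtain ⟨v, ⟨-, hv2, hv3, -⟩, hv⟩ := simons_core C hcl hcv hne hanti M (fun k g hg => hg.1)
    (half_pos hε)
  obtain ⟨m, -, hm⟩ := isCompact_univ.exists_isMaxOn (univ_nonempty (α := X))
    v.continuous.continuousOn
  have hm' : ∀ y, v y ≤ v m := fun y => hm (mem_univ y)
  let D : Set V := Subtype.val '' {y : X | v m ≤ v y}
  have hDX : D ⊆ X := by rintro _ ⟨y, -, rfl⟩; exact y.2
  have hDc : IsClosed D :=
    ((isClosed_le continuous_const v.continuous).isCompact.image continuous_subtype_val).isClosed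
  obtain ⟨e, ⟨b, hb, rfl⟩, he⟩ := exists_extreme_of_convex_diff hX hXc hDc hDX
    ⟨m, m, (le_rfl : v m ≤ v m), rfl⟩ (by
      intro x hx y hy s t hs ht hst
      refine ⟨hXc hx.1 hy.1 hs ht hst, ?_⟩
      rintro ⟨z, hz, hz'⟩
      have h1 : v ⟨x, hx.1⟩ < v m := not_le.1 fun h => hx.2 ⟨⟨x, hx.1⟩, h, rfl⟩
      have h2 : v ⟨y, hy.1⟩ < v m := not_le.1 fun h => hy.2 ⟨⟨y, hy.1⟩, h, rfl⟩
      have h3 := hv3 ⟨x, hx.1⟩ ⟨y, hy.1⟩ z s t hs ht hst hz'
      have h4 := Convex.combo_le_max (v ⟨x, hx.1⟩) (v ⟨y, hy.1⟩) hs ht hst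
      simp only [smul_eq_mul] at h4
      have h5 : v m ≤ v z := hz
      have := max_lt h1 h2
      linarith)
  have hb' : ∀ y, v y ≤ v b := fun y => (hm' y).trans hb
  have hev := (hlim b he).eventually (gt_mem_nhds (show (0 : ℝ) < ε / 4 by positivity))
  obtain ⟨k, hk⟩ := eventually_atTop.1 hev
  obtain ⟨r, ⟨-, -, -, hr4⟩, hr⟩ := hv b hb' k
  have h1 := hr4 b (ε / 4) fun n hn => (hk n hn).le
  have h2 := hb' ⟨x₀, hx₀⟩
  linarith

end Pool.Agent.Lib.MP_c64b61_an
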